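import Mathlib
import Pool.Agent.Helper617.RM.HLDefs

/-!
The statement of the thin version of Hindman's theorem inside a structure for second-order
arithmetic.
-/

namespace Pool.Agent.W941.TH

open Pool.Agent.Helper617.RM

universe u

variable (N : L2Structure.{u})

/-- `s` is the sum of the elements of the bounded set `F`: there is a function `g` of the
structure with `g 0 = 0`, `g (x + 1) = g x + x` for `x ∈ F` and `g (x + 1) = g x` for `x ∉ F`,
and `s = g b` for a bound `b` of `F`. -/
def IsSumOf (F : Set N.M) (s : N.M) : Prop :=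
  ∃ g : N.M → N.M, FunIn N g ∧ g N.zero = N.zero ∧
    (∀ x, x ∈ F → g (N.add x N.one) = N.add (g x) x) ∧
    (∀ x, x ∉ F → g (N.add x N.one) = g x) ∧
    ∃ b, (∀ x ∈ F, N.lt x b) ∧ s = g b

/-- `FS(S)`: the set of all sums of the nonempty finite subsets of `S` (the finite sets are
those of the structure that are bounded). -/
def FS (S : Set N.M) : Set N.M :=
  {s | ∃ F ∈ N.Sets, F.Nonempty ∧ F ⊆ S ∧ IsFin N F ∧ IsSumOf N F s}

/-- thin-HT: for every function `c` of the structure there is an infinite set `S` of the
structure such that `c` omits a value on `FS(S)`. -/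
def ThinHT : Prop :=
  ∀ c : N.M → N.M, FunIn N c →
    ∃ S ∈ N.Sets, ¬ IsFin N S ∧ ∃ i, ∀ s ∈ FS N S, c s ≠ i

end Pool.Agent.W941.TH
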