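import Pool.Agent.W941.TH.Bits
import Pool.Agent.W941.TH.Defs

/-! Sums of coded finite sets. -/

namespace Pool.Agent.W941.TH

open Pool.Agent.Helper617.RM Pool.Agent.H645R2.R

universe u

set_option linter.unusedSectionVars false
set_option linter.unusedVariables false

variable {N : L2Structure.{u}} [IsModelRCA0 N]

theorem DG.ite' {P : Ctx N → Prop} {hd : ∀ v, Decidable (P v)} (hP : D1 P)
    {g g' : Ctx N → N.M} (hg : DG g) (hg' : DG g') :
    DG (fun v => if P v then g v else g' v) := by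
  refine D1.congr (R := fun w : Ctx N => (P (tail w) ∧ w 0 = g (tail w)) ∨
    (¬ P (tail w) ∧ w 0 = g' (tail w))) ?_ ?_
  · exact D1.or (D1.and hP.tail hg) (D1.and hP.tail.not hg')
  · intro w
    by_cases h : P (tail w)
    · simp [h]
    · simp [h]

/-- the predecessor function -/
theorem exists_sb (N : L2Structure.{u}) [IsModelRCA0 N] :
    ∃ sb : N.M → N.M, GF sb ∧ ∀ x, sb (x + 1) = x := by
  obtain ⟨sb, h1, h2⟩ := least_fun (N := N) (P := fun x y => x = y + 1 ∨ x = 0) (by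
      exact D1.or (D1.eq (DG.var 0) (DG.add (DG.var 1) (DG.const 1)))
        (D1.eq (DG.var 0) (DG.const 0))) (by
      intro x
      rcases eq_zero_or_succ x with h | ⟨y, h⟩
      · exact ⟨0, Or.inr h⟩
      · exact ⟨y, Or.inl h⟩)
  refine ⟨sb, h1, fun x => ?_⟩
  rcases (h2 (x + 1)).1 with h | h
  · exact (add_cancel' h).symm
  · exact absurd h (succ_ne_zero' x)

/-- primitive recursion -/
theorem prec {st : N.M → N.M → N.M} (hst : D1 (fun v => v 2 = st (v 0) (v 1))) (a : N.M) :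
    ∃ Φ : N.M → N.M, GF Φ ∧ Φ 0 = a ∧ ∀ n, Φ (n + 1) = st n (Φ n) := by
  obtain ⟨sb, h1, h2⟩ := exists_sb N
  obtain ⟨Φ, h3, h4, h5⟩ := recur N (fun n => if n = 0 then 0 else sb n)
    (fun n w => st (sb n) w) a (by
      refine GF.of ?_
      exact DG.ite' (D1.eq (DG.var 0) (DG.const 0)) (DG.const 0) (DG.app h1 (DG.var 0))) (by
      exact D1.app3 (R := fun a b c => c = st a b) hst (DG.app h1 (DG.var 0)) (DG.var 1)
        (DG.var 2)) (by
      intro n hn
      rcases eq_zero_or_succ n with h | ⟨y, h⟩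
      · exact absurd h hn.ne'
      · simp only [hn.ne', if_false]
        rw [h, h2]
        exact lt1 y)
  refine ⟨Φ, h3, h4, fun n => ?_⟩
  have := h5 (n + 1) ((zero_le' _).trans_lt (lt1 _))
  simp only [succ_ne_zero', if_false, h2] at this
  exact this

/-- sums of coded sets -/
structure PS (Φ : N.M → N.M) : Prop where
  h : GF Φ
  zero : ∀ u, Φ (pr u 0) = 0
  yes : ∀ u m, MemC m u → Φ (pr u (m + 1)) = Φ (pr u m) + m
  no : ∀ u m, ¬ MemC m u → Φ (pr u (m + 1)) = Φ (pr u m)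

open Classical in
theorem exists_PS (N : L2Structure.{u}) [IsModelRCA0 N] : ∃ Φ : N.M → N.M, PS Φ := by
  obtain ⟨sb, hsb, esb⟩ := exists_sb N
  obtain ⟨fs, sn, hfs, hsn, efs, esn⟩ := exists_proj N
  have hc : ∀ {g : Ctx N → N.M}, DG g →
      D1 (fun v => g v = pr (fs (g v)) (sn (g v)) ∧ 0 < sn (g v)) := by
    intro g hg
    exact D1.and (D1.eq hg (DG.pr (DG.app hfs hg) (DG.app hsn hg)))
      (D1.lt (DG.const 0) (DG.app hsn hg))
  obtain ⟨Φ, h3, h4, h5⟩ := recur N
    (fun n => if n = pr (fs n) (sn n) ∧ 0 < sn n then pr (fs n) (sb (sn n)) else 0)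
    (fun n w => if n = pr (fs n) (sn n) ∧ 0 < sn n then
      (if MemC (sb (sn n)) (fs n) then w + sb (sn n) else w) else 0) 0 (by
      refine GF.of ?_
      exact DG.ite' (hc (DG.var 0)) (DG.pr (DG.app hfs (DG.var 0))
        (DG.app hsb (DG.app hsn (DG.var 0)))) (DG.const 0)) (by
      refine D1.eq (DG.var 2) (DG.ite' (hc (DG.var 0)) (DG.ite' ?_ ?_ (DG.var 1)) (DG.const 0))
      · exact D1.MemC (DG.app hsb (DG.app hsn (DG.var 0))) (DG.app hfs (DG.var 0))
      · exact DG.add (DG.var 1) (DG.app hsb (DG.app hsn (DG.var 0)))) (by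
      intro n hn
      by_cases h : n = pr (fs n) (sn n) ∧ 0 < sn n
      · simp only [h.2, and_true]
        rw [if_pos h.1]
        rcases eq_zero_or_succ (sn n) with h0 | ⟨y, h0⟩
        · exact absurd h0 h.2.ne'
        · conv_rhs => rw [h.1]
          rw [h0, esb]
          refine pr_lt_pr ?_
          rw [← add_assoc]
          exact lt1 _
      · rw [if_neg h]
        exact hn)
  have hs : ∀ u m : N.M, (pr u (m + 1) = pr (fs (pr u (m + 1))) (sn (pr u (m + 1))) ∧
      0 < sn (pr u (m + 1))) := by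
    intro u m
    rw [efs, esn]
    exact ⟨rfl, (zero_le' _).trans_lt (lt1 _)⟩
  have hpos : ∀ u m : N.M, 0 < pr u (m + 1) := fun u m =>
    ((zero_le' _).trans_lt (lt1 m)).trans_le (snd_le_pr _ _)
  refine ⟨Φ, h3, fun u => ?_, fun u m hm => ?_, fun u m hm => ?_⟩
  · rcases eq_or_ne (pr u 0) 0 with h | h
    · rw [h]; exact h4
    · rw [h5 _ (Pool.Agent.Helper617.RM.pos_of_ne_zero h), if_neg]
      rintro ⟨_, h'⟩
      rw [esn] at h'
      exact lt_irrefl _ h'
  · have := h5 _ (hpos u m)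
    rw [if_pos (hs u m), if_pos (hs u m)] at this
    simp only [efs, esn, esb, hm, if_true] at this
    exact this
  · have := h5 _ (hpos u m)
    rw [if_pos (hs u m), if_pos (hs u m)] at this
    simp only [efs, esn, esb, hm, if_false] at this
    exact this

section

variable {Φ : N.M → N.M} (P : PS Φ)

include P

theorem ps_stable {u b : N.M} (hb : ∀ r, MemC r u → r < b) (d : N.M) :
    Φ (pr u (b + d)) = Φ (pr u b) := by
  refine ind_S1 (P := fun d => Φ (pr u (b + d)) = Φ (pr u b)) ?_ ?_ ?_ d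
  · exact (D1.eq (DG.app P.h (DG.pr (DG.const u) (DG.add (DG.const b) (DG.var 0))))
      (DG.const _)).1
  · rw [add_zero]
  · intro d ih
    rw [← add_assoc, P.no, ih]
    intro h
    exact absurd (hb _ h) (not_lt_of_ge (le_add_of_nonneg_right (zero_le' _)))

theorem ps_stable' {u b b' : N.M} (hb : ∀ r, MemC r u → r < b) (h : b ≤ b') :
    Φ (pr u b') = Φ (pr u b) := by
  obtain ⟨d, rfl⟩ := exists_sub h
  exact ps_stable P hb d

/-- sums of finite subsets of `S` inside `[lo, hi)` -/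
def FSp (Φ : N.M → N.M) (S : Set N.M) (lo hi x : N.M) : Prop :=
  ∃ u, (∀ r, r < u → MemC r u → r ∈ S ∧ lo ≤ r ∧ r < hi) ∧ x = Φ (pr u u)

omit P in
theorem FSp.mono {S : Set N.M} {lo hi lo' hi' x : N.M} (h : FSp Φ S lo hi x) (h1 : lo' ≤ lo)
    (h2 : hi ≤ hi') : FSp Φ S lo' hi' x := by
  obtain ⟨u, hu, e⟩ := h
  exact ⟨u, fun r hr hm => ⟨(hu r hr hm).1, h1.trans (hu r hr hm).2.1,
    lt_of_lt_of_le (hu r hr hm).2.2 h2⟩, e⟩

theorem FSp_S1 {S : Set N.M} (hS : S ∈ N.Sets) {g g' g'' : Ctx N → N.M} (hg : DG g)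
    (hg' : DG g') (hg'' : DG g'') : S1 (fun v => FSp Φ S (g v) (g' v) (g'' v)) := by
  refine S1.ex (D1.and (D1.ball (P := fun v r => MemC r (v 0) → r ∈ S ∧ g (tail v) ≤ r ∧
    r < g' (tail v)) (DG.var 0) (D1.imp ?_ (D1.and ?_ (D1.and ?_ ?_)))) ?_).1
  · exact D1.MemC (DG.var 0) (DG.var 1)
  · exact D1.mem (DG.var 0) hS
  · exact D1.le hg.tail.tail (DG.var 0)
  · exact D1.lt (DG.var 0) hg'.tail.tail
  · exact D1.eq hg''.tail (DG.app P.h (DG.pr (DG.var 0) (DG.var 0)))

theorem FSp_zero (S : Set N.M) (lo hi : N.M) : FSp Φ S lo hi 0 := by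
  obtain ⟨u, h1, h2⟩ := exists_isC (N := N) (P := fun _ => False) D0.false (b := 0)
    (fun r hr => hr.elim)
  refine ⟨u, fun r _ hr => ((h2 r).1 hr).elim, ?_⟩
  rw [ps_stable' P (b := 0) (fun r hr => ((h2 r).1 hr).elim) (zero_le' _), P.zero]

theorem FSp_single {S : Set N.M} {lo hi s : N.M} (hs : s ∈ S) (h1 : lo ≤ s) (h2 : s < hi) :
    FSp Φ S lo hi s := by
  obtain ⟨u, hu, hu2⟩ := exists_isC (N := N) (P := fun r => r = s)
    (D0.eq (Tm.var 0) (Tm.const s)) (b := s + 1) (fun r hr => by rw [hr]; exact lt1 s)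
  have hsu : MemC s u := (hu2 s).2 rfl
  refine ⟨u, fun r _ hr => ?_, ?_⟩
  · rw [(hu2 r).1 hr]; exact ⟨hs, h1, h2⟩
  · have h3 : ∀ m : N.M, m ≤ s → Φ (pr u m) = 0 := by
      intro m
      refine ind_S1 (P := fun m => m ≤ s → Φ (pr u m) = 0) ?_ ?_ ?_ m
      · exact (D1.imp (D1.le (DG.var 0) (DG.const s))
          (D1.eq (DG.app P.h (DG.pr (DG.const u) (DG.var 0))) (DG.const 0))).1
      · intro _; exact P.zero u
      · intro m ih hm
        rw [P.no, ih ((lt1 m).le.trans hm)]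
        intro h
        rw [(hu2 m).1 h] at hm
        exact absurd hm (not_le_of_gt (lt1 s))
    have h4 : Φ (pr u (s + 1)) = s := by
      rw [P.yes u s hsu, h3 s le_rfl, zero_add]
    rw [ps_stable' P (b := s + 1) (fun r hr => by rw [(hu2 r).1 hr]; exact lt1 s)
      (succ_le' hsu.lt), h4]

theorem FSp_add {S : Set N.M} {lo mid mid' hi x y : N.M} (hx : FSp Φ S lo mid x)
    (hy : FSp Φ S mid' hi y) (h0 : lo ≤ mid') (h1 : mid ≤ mid') (h2 : mid ≤ hi) :
    FSp Φ S lo hi (x + y) := by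
  obtain ⟨u, hu, ex⟩ := hx
  obtain ⟨v, hv, ey⟩ := hy
  obtain ⟨w, hw, hw2⟩ := exists_isC (N := N) (P := fun r => MemC r u ∨ MemC r v)
    (D0.or (MemC_D0 (Tm.var 0) (Tm.const u)) (MemC_D0 (Tm.var 0) (Tm.const v))) (b := u + v)
    (fun r hr => by
      rcases hr with hr | hr
      · exact lt_of_lt_of_le hr.lt (le_add_of_nonneg_right (zero_le' _))
      · exact lt_of_lt_of_le hr.lt (le_add_of_nonneg_left (zero_le' _)))
  have hdis : ∀ r, MemC r u → MemC r v → False := by
    intro r h3 h4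
    have h5 := (hu r h3.lt h3).2.2
    have h6 := (hv r h4.lt h4).2.1
    exact absurd (h5.trans_le h1) (not_lt_of_ge h6)
  have key : ∀ m, Φ (pr w m) = Φ (pr u m) + Φ (pr v m) := by
    intro m
    refine ind_S1 (P := fun m => Φ (pr w m) = Φ (pr u m) + Φ (pr v m)) ?_ ?_ ?_ m
    · exact (D1.eq (DG.app P.h (DG.pr (DG.const w) (DG.var 0)))
        (DG.add (DG.app P.h (DG.pr (DG.const u) (DG.var 0)))
          (DG.app P.h (DG.pr (DG.const v) (DG.var 0))))).1
    · rw [P.zero, P.zero, P.zero, zero_add]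
    · intro m ih
      by_cases h3 : MemC m u
      · have h4 : ¬ MemC m v := fun h => hdis m h3 h
        rw [P.yes w m ((hw2 m).2 (Or.inl h3)), P.yes u m h3, P.no v m h4, ih]
        ring
      · by_cases h4 : MemC m v
        · rw [P.yes w m ((hw2 m).2 (Or.inr h4)), P.no u m h3, P.yes v m h4, ih]
          ring
        · rw [P.no w m (fun h => by rcases (hw2 m).1 h with h | h; exact h3 h; exact h4 h),
            P.no u m h3, P.no v m h4, ih]
  refine ⟨w, fun r _ hr => ?_, ?_⟩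
  · rcases (hw2 r).1 hr with h | h
    · obtain ⟨a1, a2, a3⟩ := hu r h.lt h
      exact ⟨a1, a2, a3.trans_le h2⟩
    · obtain ⟨a1, a2, a3⟩ := hv r h.lt h
      exact ⟨a1, h0.trans a2, a3⟩
  · have e1 : Φ (pr w (w + (u + v))) = Φ (pr w w) := ps_stable P (fun r hr => hr.lt) _
    have e2 : Φ (pr u (w + (u + v))) = Φ (pr u u) :=
      ps_stable' P (fun r hr => hr.lt)
        ((le_add_of_nonneg_right (zero_le' _)).trans (le_add_of_nonneg_left (zero_le' _)))
    have e3 : Φ (pr v (w + (u + v))) = Φ (pr v v) :=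
      ps_stable' P (fun r hr => hr.lt)
        ((le_add_of_nonneg_left (zero_le' _)).trans (le_add_of_nonneg_left (zero_le' _)))
    rw [ex, ey, ← e1, ← e2, ← e3, key]

theorem FSp.mem_FS {S : Set N.M} {lo hi x : N.M} (h : FSp Φ S lo hi x) (hx : 0 < x) :
    x ∈ FS N S := by
  obtain ⟨u, hu, e⟩ := h
  refine ⟨{r | MemC r u}, comp_D0 (P := fun i => MemC i u) (MemC_D0 (Tm.var 0) (Tm.const u)),
    ?_, fun r hr => (hu r (MemC.lt hr) hr).1, ⟨u, fun i hi => MemC.lt hi⟩, fun m => Φ (pr u m),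
    ?_, P.zero u, P.yes u, P.no u, u, fun r hr => MemC.lt hr, e⟩
  · by_contra hcon
    rw [Set.not_nonempty_iff_eq_empty] at hcon
    have h0 : ∀ r, ¬ MemC r u := fun r hr => by
      have : r ∈ {r | MemC r u} := hr
      rw [hcon] at this
      exact this
    rw [ps_stable' P (b := 0) (fun r hr => (h0 r hr).elim) (zero_le' _), P.zero] at e
    exact absurd hx (by rw [e]; exact lt_irrefl _)
  · have hG : GF (fun m => Φ (pr u m)) :=
      GF.of (DG.app P.h (DG.pr (DG.const u) (DG.var 0)))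
    exact codeRel_mem_D0 (R := fun x y => y = Φ (pr u x)) hG

end

end Pool.Agent.W941.TH
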