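import Mathlib
import Pool.Agent.H645R2.R.Rec
import Pool.Agent.H645R2.R.BinEx
import Pool.Agent.H645R2.R.BinPF
import Pool.Agent.H645R2.R.BinLa
import Pool.Agent.Helper617.RM.ACA

/-! Tools for models of `RCA₀`: projections, choice of functions, maximum principle, pigeonhole. -/

namespace Pool.Agent.W941.TH

open Pool.Agent.Helper617.RM Pool.Agent.H645R2.R

universe u

set_option linter.unusedSectionVars false
set_option linter.unusedVariables false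

variable {N : L2Structure.{u}} [IsModelRCA0 N]

/-! ### least witnesses -/

theorem D1.rel2 {R : N.M → N.M → Prop} (hR : D1 (fun v => R (v 0) (v 1)))
    {g g' : Ctx N → N.M} (hg : DG g) (hg' : DG g') : D1 (fun v => R (g v) (g' v)) :=
  D1.app2 hR hg hg'

theorem GF.D1 {f : N.M → N.M} (hf : GF f) : D1 (fun v => v 1 = f (v 0)) := D1.of hf

/-- functions giving least witnesses -/
theorem least_fun {P : N.M → N.M → Prop} (hP : D1 (fun v => P (v 0) (v 1)))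
    (h : ∀ b, ∃ m, P b m) : ∃ f : N.M → N.M, GF f ∧ ∀ b, P b (f b) ∧ ∀ m, m < f b → ¬ P b m := by
  have key : ∀ b, ∃ n, P b n ∧ ∀ m, m < n → ¬ P b m := by
    intro b
    obtain ⟨m, hm⟩ := h b
    obtain ⟨n, -, h1, h2⟩ := lnp_S1 (P := fun n => P b n)
      (D1.app2 hP (DG.const b) (DG.var 0)).1 m hm
    exact ⟨n, h1, h2⟩
  choose f hf using key
  refine ⟨f, GF.graph ?_, hf⟩
  refine D1.congr (R := fun v : Ctx N => P (v 0) (v 1) ∧ ∀ m, m < v 1 → ¬ P (v 0) m) ?_ ?_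
  · refine D1.and hP (D1.ball (P := fun v m => ¬ P (v 0) m) (DG.var 1) (D1.not ?_))
    exact D1.app2 hP (DG.var 1) (DG.var 0)
  · intro v
    constructor
    · rintro ⟨h1, h2⟩
      rcases lt_trichotomy (v 1) (f (v 0)) with h3 | h3 | h3
      · exact absurd h1 ((hf (v 0)).2 _ h3)
      · exact h3
      · exact absurd (hf (v 0)).1 (h2 _ h3)
    · intro h1
      rw [h1]
      exact hf (v 0)

/-! ### projections -/

theorem exists_proj (N : L2Structure.{u}) [IsModelRCA0 N] :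
    ∃ fs sn : N.M → N.M, GF fs ∧ GF sn ∧ (∀ x y, fs (pr x y) = x) ∧ ∀ x y, sn (pr x y) = y := by
  have hpair : D1 (fun v : Ctx N => ∃ x, x < v 0 + 1 ∧ ∃ y, y < v 0 + 1 ∧ v 0 = pr x y) := by
    refine D1.bex (P := fun v x => ∃ y, y < v 0 + 1 ∧ v 0 = pr x y)
      (DG.add (DG.var 0) (DG.const 1)) ?_
    refine D1.bex (P := fun v y => v 1 = pr (v 0) y) (DG.add (DG.var 1) (DG.const 1)) ?_
    exact D1.eq (DG.var 2) (DG.pr (DG.var 1) (DG.var 0))
  have hb : ∀ x y : N.M, x < pr x y + 1 ∧ y < pr x y + 1 := fun x y =>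
    ⟨lt1_of_le (fst_le_pr x y), lt1_of_le (snd_le_pr x y)⟩
  obtain ⟨fs, h1, h2⟩ := least_fun (N := N)
    (P := fun n x => (∃ y, y < n + 1 ∧ n = pr x y) ∨
      ¬ ∃ x, x < n + 1 ∧ ∃ y, y < n + 1 ∧ n = pr x y) (by
      refine D1.or ?_ (D1.not hpair)
      refine D1.bex (P := fun v y => v 0 = pr (v 1) y) (DG.add (DG.var 0) (DG.const 1)) ?_
      exact D1.eq (DG.var 1) (DG.pr (DG.var 2) (DG.var 0))) (by
      intro n
      by_cases h : ∃ x, x < n + 1 ∧ ∃ y, y < n + 1 ∧ n = pr x y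
      · obtain ⟨x, hx, hy⟩ := h
        exact ⟨x, Or.inl hy⟩
      · exact ⟨0, Or.inr h⟩)
  obtain ⟨sn, h3, h4⟩ := least_fun (N := N)
    (P := fun n y => (∃ x, x < n + 1 ∧ n = pr x y) ∨
      ¬ ∃ x, x < n + 1 ∧ ∃ y, y < n + 1 ∧ n = pr x y) (by
      refine D1.or ?_ (D1.not hpair)
      refine D1.bex (P := fun v y => v 0 = pr y (v 1)) (DG.add (DG.var 0) (DG.const 1)) ?_
      exact D1.eq (DG.var 1) (DG.pr (DG.var 0) (DG.var 2))) (by
      intro n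
      by_cases h : ∃ x, x < n + 1 ∧ ∃ y, y < n + 1 ∧ n = pr x y
      · obtain ⟨x, hx, y, hy, h⟩ := h
        exact ⟨y, Or.inl ⟨x, hx, h⟩⟩
      · exact ⟨0, Or.inr h⟩)
  refine ⟨fs, sn, h1, h3, fun x y => ?_, fun x y => ?_⟩
  · rcases (h2 (pr x y)).1 with ⟨y', _, he⟩ | hn
    · exact (pr_inj he).1.symm
    · exact absurd ⟨x, (hb x y).1, y, (hb x y).2, rfl⟩ hn
  · rcases (h4 (pr x y)).1 with ⟨x', _, he⟩ | hn
    · exact (pr_inj he).2.symm
    · exact absurd ⟨x, (hb x y).1, y, (hb x y).2, rfl⟩ hn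

/-- choice for `Σ⁰₁` relations -/
theorem choice {R : N.M → N.M → Prop} (hR : S1 (fun v => R (v 0) (v 1)))
    (h : ∀ b, ∃ n, R b n) : ∃ f : N.M → N.M, GF f ∧ ∀ b, R b (f b) := by
  obtain ⟨Q, hQ, hRQ⟩ := hR
  obtain ⟨fs, sn, hfs, hsn, efs, esn⟩ := exists_proj N
  have hRQ' : ∀ b n, R b n ↔ ∃ k, Q (cons b (cons n (fun _ => (0 : N.M)))) k := fun b n =>
    hRQ (cons b (cons n (fun _ => (0 : N.M))))
  have hD : D1 (fun v : Ctx N => Q (cons (v 0) (cons (fs (v 1)) (fun _ => (0 : N.M)))) (sn (v 1))) := by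
    have h0 : D1 (fun v : Ctx N => Q (cons (v 0) (cons (v 1) (fun _ => (0 : N.M)))) (v 2)) :=
      D1.of (D0.comp (R := fun w => Q (tail w) (w 0)) hQ
        (g := fun w => cons (w 2) (cons (w 0) (cons (w 1) (fun _ => (0 : N.M)))))
        (CM.cons (Tm.var 2) (CM.cons (Tm.var 0) (CM.cons (Tm.var 1) (fun _ => Tm.zero)))))
    exact D1.app3 (R := fun a b c => Q (cons a (cons b (fun _ => (0 : N.M)))) c) h0
      (DG.var 0) (DG.app hfs (DG.var 1)) (DG.app hsn (DG.var 1))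
  obtain ⟨g, hg, hg2⟩ := least_fun
    (P := fun b m => Q (cons b (cons (fs m) (fun _ => (0 : N.M)))) (sn m)) hD (by
      intro b
      obtain ⟨n, hn⟩ := h b
      obtain ⟨k, hk⟩ := (hRQ' b n).1 hn
      refine ⟨pr n k, ?_⟩
      rw [efs, esn]
      exact hk)
  refine ⟨fun b => fs (g b), GF.of (DG.app hfs (DG.app hg (DG.var 0))), fun b => ?_⟩
  exact (hRQ' b _).2 ⟨_, (hg2 b).1⟩

/-- choice of two values -/
theorem choice2 {R : N.M → N.M → N.M → Prop} (hR : S1 (fun v => R (v 0) (v 1) (v 2)))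
    (h : ∀ b, ∃ n n', R b n n') : ∃ f f' : N.M → N.M, GF f ∧ GF f' ∧ ∀ b, R b (f b) (f' b) := by
  obtain ⟨fs, sn, hfs, hsn, efs, esn⟩ := exists_proj N
  have hS : S1 (fun v : Ctx N => R (v 0) (fs (v 1)) (sn (v 1))) := by
    have h1 : S1 (fun v : Ctx N => ∃ a, a = fs (v 1) ∧ ∃ b, b = sn (v 1) ∧ R (v 0) a b) := by
      refine S1.ex (S1.and ?_ (S1.ex (S1.and ?_ ?_)))
      · exact (D1.eq (DG.var 0) (DG.app hfs (DG.var 2))).1
      · exact (D1.eq (DG.var 0) (DG.app hsn (DG.var 3))).1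
      · exact S1.comp (R := fun v => R (v 0) (v 1) (v 2)) hR
          (g := fun v => cons (v 2) (cons (v 1) (cons (v 0) v)))
          (CM.cons (Tm.var 2) (CM.cons (Tm.var 1) (CM.cons (Tm.var 0) CM.id)))
    exact h1.congr fun v => by simp
  obtain ⟨g, hg, hg2⟩ := choice (R := fun b m => R b (fs m) (sn m)) hS (by
    intro b
    obtain ⟨n, n', hn⟩ := h b
    refine ⟨pr n n', ?_⟩
    rw [efs, esn]
    exact hn)
  exact ⟨fun b => fs (g b), fun b => sn (g b), GF.of (DG.app hfs (DG.app hg (DG.var 0))),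
    GF.of (DG.app hsn (DG.app hg (DG.var 0))), hg2⟩

/-- maximum principle -/
theorem max_S1 {P : N.M → Prop} (hP : S1 (fun v => P (v 0))) (a : N.M)
    (h : ∃ c, c ≤ a ∧ P c) : ∃ c, c ≤ a ∧ P c ∧ ∀ c', c' ≤ a → P c' → c' ≤ c := by
  obtain ⟨c, hc, hPc⟩ := h
  obtain ⟨e, he⟩ := exists_sub hc
  obtain ⟨d, -, ⟨c1, h1, h2⟩, h3⟩ := lnp_S1 (P := fun d => ∃ c, c + d = a ∧ P c) (by
      refine S1.ex (S1.and (D0.eq ((Tm.var 0).add (Tm.var 1)) (Tm.const a)).S1 ?_)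
      exact hP.pred (Tm.var 0)) e ⟨c, he.symm, hPc⟩
  refine ⟨c1, ?_, h2, fun c' hc' hPc' => ?_⟩
  · rw [← h1]; exact le_add_of_nonneg_right (zero_le' _)
  · by_contra hcon
    push Not at hcon
    obtain ⟨d', hd'⟩ := exists_sub hc'
    refine h3 d' ?_ ⟨c', hd'.symm, hPc'⟩
    by_contra hd
    push Not at hd
    have : c1 + d < c' + d' := add_lt_add_of_lt_of_le hcon hd
    rw [h1, ← hd'] at this
    exact lt_irrefl _ this

/-! ### the pigeonhole principle -/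

theorem php_code (m : N.M) : ∀ u, IsSq u (m + 1) →
    (∀ k, k < m + 1 → ∀ z, z < u → MemC (pr k z) u → z < m) →
    ∃ k, k < m + 1 ∧ ∃ k', k' < m + 1 ∧ (k < k' ∧ ∃ z, z < u ∧ (MemC (pr k z) u ∧
      MemC (pr k' z) u)) := by
  refine ind_P1 (P := fun m => ∀ u, IsSq u (m + 1) →
    (∀ k, k < m + 1 → ∀ z, z < u → MemC (pr k z) u → z < m) →
    ∃ k, k < m + 1 ∧ ∃ k', k' < m + 1 ∧ (k < k' ∧ ∃ z, z < u ∧ (MemC (pr k z) u ∧
      MemC (pr k' z) u))) ?_ ?_ ?_ m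
  · refine S1.congr (R := fun v => ∃ u, ¬ (IsSq u (v 0 + 1) →
      (∀ k, k < v 0 + 1 → ∀ z, z < u → MemC (pr k z) u → z < v 0) →
      ∃ k, k < v 0 + 1 ∧ ∃ k', k' < v 0 + 1 ∧ (k < k' ∧ ∃ z, z < u ∧ (MemC (pr k z) u ∧
      MemC (pr k' z) u)))) ?_ fun v => by rw [not_forall]
    refine S1.ex (D0.S1 (D0.not (D0.imp ?_ (D0.imp ?_ ?_))))
    · exact IsSq_D0 (Tm.var 0) ((Tm.var 1).add Tm.one)
    · refine D0.ball ((Tm.var 1).add Tm.one) (D0.ball (Tm.var 1) (D0.imp ?_ ?_))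
      · exact MemC_D0 ((Tm.var 1).pr (Tm.var 0)) (Tm.var 2)
      · exact D0.lt (Tm.var 0) (Tm.var 3)
    · refine D0.bex ((Tm.var 1).add Tm.one) (D0.bex ((Tm.var 2).add Tm.one) (D0.and ?_
        (D0.bex (Tm.var 2) (D0.and ?_ ?_))))
      · exact D0.lt (Tm.var 1) (Tm.var 0)
      · exact MemC_D0 ((Tm.var 2).pr (Tm.var 0)) (Tm.var 3)
      · exact MemC_D0 ((Tm.var 1).pr (Tm.var 0)) (Tm.var 3)
  · intro u hu h
    obtain ⟨z, hz⟩ := hu.ex (lt1 (0 : N.M))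
    exact absurd (h 0 (lt1 _) z hz.snd_lt hz) (not_lt_of_ge (zero_le' _))
  · intro m ih u hu h
    obtain ⟨w, hw⟩ := hu.ex (lt1 (m + 1))
    by_cases hrep : ∃ k, k < m + 1 ∧ MemC (pr k w) u
    · obtain ⟨k, hk, hkw⟩ := hrep
      exact ⟨k, hk.trans (lt1 _), m + 1, lt1 _, hk, w, hw.snd_lt, hkw, hw⟩
    · push Not at hrep
      obtain ⟨u', hu'1, hu'2⟩ := exists_isC
        (P := fun r => ∃ k, k < m + 1 ∧ ∃ z, z < u ∧ (r = pr k z ∧
          ((MemC (pr k z) u ∧ ¬ z = m) ∨ (MemC (pr k m) u ∧ z = w)))) (by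
          refine D0.bex (Tm.const _) (D0.bex (Tm.const _) (D0.and ?_ (D0.or (D0.and ?_ ?_)
            (D0.and ?_ ?_))))
          · exact D0.eq (Tm.var 2) ((Tm.var 1).pr (Tm.var 0))
          · exact MemC_D0 ((Tm.var 1).pr (Tm.var 0)) (Tm.const u)
          · exact (D0.eq (Tm.var 0) (Tm.const m)).not
          · exact MemC_D0 ((Tm.var 1).pr (Tm.const m)) (Tm.const u)
          · exact D0.eq (Tm.var 0) (Tm.const w)) (b := pr (m + 1) u) (by
          rintro r ⟨k, hk, z, hz, rfl, -⟩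
          exact pr_lt_pr (add_lt_add hk hz))
      have hmem : ∀ k z, MemC (pr k z) u' ↔ k < m + 1 ∧ z < u ∧
          ((MemC (pr k z) u ∧ ¬ z = m) ∨ (MemC (pr k m) u ∧ z = w)) := by
        intro k z
        rw [hu'2]
        constructor
        · rintro ⟨k1, hk1, z1, hz1, he, h1⟩
          obtain ⟨rfl, rfl⟩ := pr_inj he
          exact ⟨hk1, hz1, h1⟩
        · rintro ⟨h1, h2, h3⟩
          exact ⟨k, h1, z, h2, rfl, h3⟩
      have hsq : IsSq u' (m + 1) := by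
        refine isSq_of hu'1 (fun r hr => ?_) (fun k hk => ?_) (fun k z z' h1 h2 => ?_)
        · obtain ⟨k, hk, z, hz, he, -⟩ := (hu'2 r).1 hr
          exact ⟨k, z, hk, he⟩
        · obtain ⟨z, hz⟩ := hu.ex (hk.trans (lt1 _))
          by_cases hzm : z = m
          · subst hzm
            exact ⟨w, (hmem _ _).2 ⟨hk, hw.snd_lt, Or.inr ⟨hz, rfl⟩⟩⟩
          · exact ⟨z, (hmem _ _).2 ⟨hk, hz.snd_lt, Or.inl ⟨hz, hzm⟩⟩⟩
        · obtain ⟨hk, _, h1⟩ := (hmem _ _).1 h1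
          obtain ⟨_, _, h2⟩ := (hmem _ _).1 h2
          rcases h1 with ⟨h1, h1'⟩ | ⟨h1, h1'⟩ <;> rcases h2 with ⟨h2, h2'⟩ | ⟨h2, h2'⟩
          · exact hu.fn h1 h2
          · exact absurd (hu.fn h1 h2) h1'
          · exact absurd (hu.fn h2 h1) h2'
          · rw [h1', h2']
      have hval : ∀ k, k < m + 1 → ∀ z, z < u' → MemC (pr k z) u' → z < m := by
        intro k hk z _ hz
        obtain ⟨_, _, h1⟩ := (hmem _ _).1 hz
        rcases h1 with ⟨h1, h1'⟩ | ⟨h1, h1'⟩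
        · exact lt_of_le_of_ne (le_of_lt1 (h k (hk.trans (lt1 _)) z h1.snd_lt h1)) h1'
        · have h2 := le_of_lt1 (h (m + 1) (lt1 _) w hw.snd_lt hw)
          rw [h1']
          refine lt_of_le_of_ne h2 fun he => ?_
          rw [he] at hrep
          exact hrep k hk h1
      obtain ⟨k, hk, k', hk', hkk, z, hz, h1, h2⟩ := ih u' hsq hval
      obtain ⟨_, _, h1⟩ := (hmem _ _).1 h1
      obtain ⟨_, _, h2⟩ := (hmem _ _).1 h2
      rcases h1 with ⟨h1, h1'⟩ | ⟨h1, h1'⟩ <;> rcases h2 with ⟨h2, h2'⟩ | ⟨h2, h2'⟩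
      · exact ⟨k, hk.trans (lt1 _), k', hk'.trans (lt1 _), hkk, z, h1.snd_lt, h1, h2⟩
      · rw [h2'] at h1
        exact absurd h1 (hrep k hk)
      · rw [h1'] at h2
        exact absurd h2 (hrep k' hk')
      · exact ⟨k, hk.trans (lt1 _), k', hk'.trans (lt1 _), hkk, m, h1.snd_lt, h1, h2⟩

theorem php {A : N.M → N.M} (hA : GF A) (m : N.M) (h : ∀ k, k ≤ m → A k < m) :
    ∃ k k', k < k' ∧ k' ≤ m ∧ A k = A k' := by
  obtain ⟨u, hu1, hu2⟩ := exists_isC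
    (P := fun r => ∃ k, k < m + 1 ∧ ∃ z, z < m ∧ (r = pr k z ∧ z = A k)) (by
      refine D0.bex (Tm.const _) (D0.bex (Tm.const _) (D0.and ?_ ?_))
      · exact D0.eq (Tm.var 2) ((Tm.var 1).pr (Tm.var 0))
      · exact D0.rel (R := fun a b => b = A a) hA (Tm.var 1) (Tm.var 0)) (b := pr (m + 1) m) (by
      rintro r ⟨k, hk, z, hz, rfl, -⟩
      exact pr_lt_pr (add_lt_add hk hz))
  have hmem : ∀ k z, MemC (pr k z) u ↔ k < m + 1 ∧ z = A k := by
    intro k z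
    rw [hu2]
    constructor
    · rintro ⟨k1, hk1, z1, hz1, he, h1⟩
      obtain ⟨rfl, rfl⟩ := pr_inj he
      exact ⟨hk1, h1⟩
    · rintro ⟨h1, h2⟩
      refine ⟨k, h1, z, ?_, rfl, h2⟩
      rw [h2]
      exact h k (le_of_lt1 h1)
  have hsq : IsSq u (m + 1) := by
    refine isSq_of hu1 (fun r hr => ?_) (fun k hk => ?_) (fun k z z' h1 h2 => ?_)
    · obtain ⟨k, hk, z, hz, he, -⟩ := (hu2 r).1 hr
      exact ⟨k, z, hk, he⟩
    · exact ⟨A k, (hmem _ _).2 ⟨hk, rfl⟩⟩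
    · rw [((hmem _ _).1 h1).2, ((hmem _ _).1 h2).2]
  obtain ⟨k, hk, k', hk', hkk, z, hz, h1, h2⟩ := php_code m u hsq (by
    intro k hk z _ hz
    rw [((hmem _ _).1 hz).2]
    exact h k (le_of_lt1 hk))
  exact ⟨k, k', hkk, le_of_lt1 hk', ((hmem _ _).1 h1).2.symm.trans ((hmem _ _).1 h2).2⟩

end Pool.Agent.W941.TH
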