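import Pool.Agent.W941.TH.Tools

/-! Binary expansions: numbers with separated supports, removing the lowest binary digit, the number
of digits one, and the number of very short gaps. -/

namespace Pool.Agent.W941.TH

open Pool.Agent.Helper617.RM Pool.Agent.H645R2.R

universe u

set_option linter.unusedSectionVars false
set_option linter.unusedVariables false

variable {N : L2Structure.{u}} [IsModelRCA0 N]

/-- the binary structure exists -/
theorem exists_binF (N : L2Structure.{u}) [IsModelRCA0 N] :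
    ∃ p2 top la : N.M → N.M, BinF p2 top la := by
  obtain ⟨p2, top, la, h⟩ := bin N
  exact ⟨p2, top, la, binf N p2 top la (binp N p2 top la h)⟩

section

variable {p2 top la : N.M → N.M} (B : BinF p2 top la)

/-- all digits one of `x` are below all digits one of `y` -/
def Ap (top la : N.M → N.M) (x y : N.M) : Prop := 0 < x ∧ 0 < y ∧ top x < la y

include B

theorem p2_mono {a b : N.M} (h : a ≤ b) : p2 a ≤ p2 b := by
  rcases lt_or_eq_of_le h with h | h
  · exact (B.p2_lt a b h).le
  · rw [h]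

theorem lt_of_p2_lt {a b : N.M} (h : p2 a < p2 b) : a < b := by
  by_contra hc
  push Not at hc
  exact absurd (p2_mono B hc) (not_le_of_gt h)

theorem ap_eq {x y : N.M} (h : Ap top la x y) : ∃ q, y = p2 (top x + 1) * q ∧ 0 < q := by
  obtain ⟨q, hq⟩ := B.la_eq y h.2.1
  obtain ⟨d, hd⟩ := exists_sub (succ_le' h.2.2)
  refine ⟨p2 d * (q + q + 1), ?_, ?_⟩
  · rw [← mul_assoc, ← B.p2_add, ← hd]
    exact hq
  · exact mul_pos (B.p2_pos d) ((zero_le' _).trans_lt (lt1 _))

theorem la_add_ap {x y : N.M} (h : Ap top la x y) : la (x + y) = la x := by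
  obtain ⟨q, hq, _⟩ := ap_eq B h
  rw [hq]
  exact B.la_add x _ q h.1 (B.lt_top x)

theorem top_add_ap {x y : N.M} (h : Ap top la x y) : top (x + y) = top y := by
  obtain ⟨q, hq⟩ := B.la_eq y h.2.1
  have h1 : la y ≤ top y := B.la_le_top y h.2.1
  obtain ⟨d, hd⟩ := exists_sub h1
  have hx : x < p2 (la y) := lt_of_lt_of_le (B.lt_top x) (p2_mono B (succ_le' h.2.2))
  have h2 : y < p2 (top y + 1) := B.lt_top y
  have h3 : p2 (top y + 1) = p2 (la y) * p2 (d + 1) := by
    rw [← B.p2_add, ← add_assoc, ← hd]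
  have h4 : y + p2 (la y) ≤ p2 (top y + 1) := by
    rw [h3] at h2 ⊢
    have h5 : q + q + 1 < p2 (d + 1) := by
      by_contra hc
      push Not at hc
      have : p2 (la y) * p2 (d + 1) ≤ p2 (la y) * (q + q + 1) := mul_le_mul' le_rfl hc
      rw [← hq] at this
      exact absurd h2 (not_lt_of_ge this)
    calc y + p2 (la y) = p2 (la y) * (q + q + 1) + p2 (la y) := by rw [← hq]
      _ = p2 (la y) * (q + q + 1 + 1) := by ring
      _ ≤ p2 (la y) * p2 (d + 1) := mul_le_mul' le_rfl (succ_le' h5)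
  refine B.top_unique (x + y) (top y) ?_ ?_
  · exact (B.top_le y h.2.1).trans (le_add_of_nonneg_left (zero_le' _))
  · calc x + y < p2 (la y) + y := add_lt_add_left hx y
      _ = y + p2 (la y) := add_comm _ _
      _ ≤ p2 (top y + 1) := h4

/-- removing the lowest digit -/
theorem exists_pd : ∃ pd : N.M → N.M, GF pd ∧ pd 0 = 0 ∧ ∀ x, 0 < x → x = pd x + p2 (la x) := by
  have key : ∀ x : N.M, ∃ y, (x = 0 ∧ y = 0) ∨ (0 < x ∧ x = y + p2 (la x)) := by
    intro x
    rcases eq_or_ne x 0 with h | h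
    · exact ⟨0, Or.inl ⟨h, rfl⟩⟩
    · have h0 := Pool.Agent.Helper617.RM.pos_of_ne_zero h
      obtain ⟨q, hq⟩ := B.la_eq x h0
      refine ⟨p2 (la x) * (q + q), Or.inr ⟨h0, ?_⟩⟩
      conv_lhs => rw [hq]
      ring
  obtain ⟨pd, h1, h2⟩ := least_fun
    (P := fun x y => (x = 0 ∧ y = 0) ∨ (0 < x ∧ x = y + p2 (la x))) (by
      refine D1.or (D1.and (D1.eq (DG.var 0) (DG.const 0)) (D1.eq (DG.var 1) (DG.const 0)))
        (D1.and (D1.lt (DG.const 0) (DG.var 0)) (D1.eq (DG.var 0) (DG.add (DG.var 1)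
          (DG.app B.hp2 (DG.app B.hla (DG.var 0))))))) key
  refine ⟨pd, h1, ?_, fun x hx => ?_⟩
  · rcases (h2 0).1 with ⟨_, h⟩ | ⟨h, _⟩
    · exact h
    · exact absurd h (lt_irrefl _)
  · rcases (h2 x).1 with ⟨h, _⟩ | ⟨_, h⟩
    · exact absurd h hx.ne'
    · exact h

end

/-- the data used: removing the lowest digit, the number of digits one -/
structure Bits (p2 top la pd pc : N.M → N.M) : Prop extends BinF p2 top la where
  hpd : GF pd
  hpc : GF pc
  pd_zero : pd 0 = 0
  pd_eq : ∀ x, 0 < x → x = pd x + p2 (la x)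
  pc_zero : pc 0 = 0
  pc_eq : ∀ x, 0 < x → pc x = pc (pd x) + 1

theorem exists_bits (N : L2Structure.{u}) [IsModelRCA0 N] :
    ∃ p2 top la pd pc : N.M → N.M, Bits p2 top la pd pc := by
  obtain ⟨p2, top, la, B⟩ := exists_binF N
  obtain ⟨pd, h1, h2, h3⟩ := exists_pd B
  have hlt : ∀ n, 0 < n → pd n < n := by
    intro n hn
    conv_rhs => rw [h3 n hn]
    exact lt_add_of_pos_right _ (B.p2_pos _)
  obtain ⟨pc, h4, h5, h6⟩ := recur N pd (fun _ w => w + 1) 0 h1
    (D1.eq (DG.var 2) (DG.add (DG.var 1) (DG.const 1))) hlt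
  exact ⟨p2, top, la, pd, pc, { B with
    hpd := h1, hpc := h4, pd_zero := h2, pd_eq := h3, pc_zero := h5, pc_eq := h6 }⟩

section

variable {p2 top la pd pc : N.M → N.M} (B : Bits p2 top la pd pc)

include B

theorem pd_lt {x : N.M} (hx : 0 < x) : pd x < x := by
  conv_rhs => rw [B.pd_eq x hx]
  exact lt_add_of_pos_right _ (B.p2_pos _)

/-- a number with one digit, or the sum of a digit and the rest -/
theorem pd_cases {x : N.M} (hx : 0 < x) : (pd x = 0 ∧ top x = la x) ∨
    (0 < pd x ∧ la x < la (pd x) ∧ top (pd x) = top x) := by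
  rcases eq_or_ne (pd x) 0 with h | h
  · left
    refine ⟨h, ?_⟩
    have h1 := B.pd_eq x hx
    rw [h, zero_add] at h1
    conv_lhs => rw [h1]
    exact B.top_p2 _
  · right
    have h0 := Pool.Agent.Helper617.RM.pos_of_ne_zero h
    obtain ⟨q, hq⟩ := B.la_eq x hx
    have h1 : pd x + p2 (la x) = p2 (la x) * (q + q) + p2 (la x) := by
      rw [← B.pd_eq x hx]
      conv_lhs => rw [hq]
      ring
    have h2 : pd x = p2 (la x) * (q + q) := add_cancel' h1
    have hq0 : 0 < q := by
      rcases eq_or_ne q 0 with h3 | h3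
      · rw [h3, add_zero, mul_zero] at h2
        exact absurd h2 h
      · exact Pool.Agent.Helper617.RM.pos_of_ne_zero h3
    have h3 : pd x = p2 (la x + 1) * q := by
      rw [h2, B.p2_succ]; ring
    have h4 : la x + 1 ≤ la (pd x) := by
      rw [h3]
      exact B.le_la _ _ hq0
    have h5 : la x < la (pd x) := add_one_le_iff'.1 h4
    refine ⟨h0, h5, ?_⟩
    have hap : Ap top la (p2 (la x)) (pd x) := by
      refine ⟨B.p2_pos _, h0, ?_⟩
      rw [B.top_p2]
      exact h5
    have h6 := top_add_ap B.toBinF hap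
    rw [add_comm, ← B.pd_eq x hx] at h6
    exact h6.symm

theorem pd_add {x y : N.M} (h : Ap top la x y) : pd (x + y) = pd x + y := by
  have h1 : 0 < x + y := add_pos h.1 h.2.1
  have h2 := B.pd_eq (x + y) h1
  rw [la_add_ap B.toBinF h] at h2
  have h3 : x + y = (pd x + y) + p2 (la x) := by
    conv_lhs => rw [B.pd_eq x h.1]
    ring
  rw [h3] at h2
  rw [h3]
  exact (add_cancel' h2).symm

theorem ap_pd {x y : N.M} (h : Ap top la x y) (h0 : 0 < pd x) : Ap top la (pd x) y := by
  rcases pd_cases B h.1 with ⟨h1, _⟩ | ⟨_, _, h1⟩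
  · exact absurd h1 h0.ne'
  · exact ⟨h0, h.2.1, by rw [h1]; exact h.2.2⟩

theorem pc_add {x y : N.M} (h : Ap top la x y) : pc (x + y) = pc x + pc y := by
  have key : ∀ b : N.M, ∀ x, x < b → 0 < x → top x < la y → pc (x + y) = pc x + pc y := by
    intro b
    refine ind_S1 (P := fun b => ∀ x, x < b → 0 < x → top x < la y → pc (x + y) = pc x + pc y)
      ?_ ?_ ?_ b
    · refine (D1.ball (P := fun v x => 0 < x → top x < la y → pc (x + y) = pc x + pc y)
        (DG.var 0) (D1.imp ?_ (D1.imp ?_ ?_))).1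
      · exact D1.lt (DG.const 0) (DG.var 0)
      · exact D1.lt (DG.app B.htop (DG.var 0)) (DG.const _)
      · exact D1.eq (DG.app B.hpc (DG.add (DG.var 0) (DG.const y)))
          (DG.add (DG.app B.hpc (DG.var 0)) (DG.const _))
    · intro x hx
      exact absurd hx (not_lt_of_ge (zero_le' _))
    · intro b ih x hxb hx ht
      have hap : Ap top la x y := ⟨hx, h.2.1, ht⟩
      have h1 : 0 < x + y := add_pos hx h.2.1
      rw [B.pc_eq (x + y) h1, pd_add B hap, B.pc_eq x hx]
      rcases pd_cases B hx with ⟨h2, h3⟩ | ⟨h2, h3, h4⟩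
      · rw [h2, zero_add, B.pc_zero, zero_add, add_comm]
      · rw [ih (pd x) (lt_of_lt_of_le (pd_lt B hx) (le_of_lt1 hxb)) h2 (by rw [h4]; exact ht)]
        ring
  exact key (x + 1) x (lt1 x) h.1 h.2.2

theorem pc_pos {x : N.M} (h : 0 < x) : 0 < pc x := by
  rw [B.pc_eq x h]
  exact (zero_le' _).trans_lt (lt1 _)

end

/-! ### very short gaps -/

/-- the lowest gap of `n` is very short -/
def VS (top la pd f : N.M → N.M) (n : N.M) : Prop :=
  0 < pd n ∧ ∃ p, p < top n + 1 ∧ (la (pd n) < p ∧ ∀ q, q < la (pd n) + 1 → la n < q → f p < f q)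

/-- `V n` is the number of very short gaps of `n` -/
structure VF (top la pd f V : N.M → N.M) : Prop where
  hV : GF V
  zero : V 0 = 0
  yes : ∀ n, 0 < n → VS top la pd f n → V n = V (pd n) + 1
  no : ∀ n, 0 < n → ¬ VS top la pd f n → V n = V (pd n)

section

variable {p2 top la pd pc : N.M → N.M} (B : Bits p2 top la pd pc)

include B

theorem exists_V {f : N.M → N.M} (hf : GF f) : ∃ V, VF top la pd f V := by
  classical
  have hVS : D1 (fun v : Ctx N => VS top la pd f (v 0)) := by
    refine D1.and (D1.lt (DG.const 0) (DG.app B.hpd (DG.var 0))) ?_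
    refine D1.bex (P := fun v p => la (pd (v 0)) < p ∧ ∀ q, q < la (pd (v 0)) + 1 →
      la (v 0) < q → f p < f q) (DG.add (DG.app B.htop (DG.var 0)) (DG.const 1)) ?_
    refine D1.and (D1.lt (DG.app B.hla (DG.app B.hpd (DG.var 1))) (DG.var 0)) ?_
    refine D1.ball (P := fun v q => la (v 1) < q → f (v 0) < f q)
      (DG.add (DG.app B.hla (DG.app B.hpd (DG.var 1))) (DG.const 1)) (D1.imp ?_ ?_)
    · exact D1.lt (DG.app B.hla (DG.var 2)) (DG.var 0)
    · exact D1.lt (DG.app hf (DG.var 1)) (DG.app hf (DG.var 0))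
  have hst : D1 (fun v : Ctx N => v 2 = (fun n w => if VS top la pd f n then w + 1 else w)
      (v 0) (v 1)) := by
    refine D1.congr (R := fun v : Ctx N => (VS top la pd f (v 0) ∧ v 2 = v 1 + 1) ∨
      (¬ VS top la pd f (v 0) ∧ v 2 = v 1)) ?_ ?_
    · exact D1.or (D1.and hVS (D1.eq (DG.var 2) (DG.add (DG.var 1) (DG.const 1))))
        (D1.and hVS.not (D1.eq (DG.var 2) (DG.var 1)))
    · intro v
      by_cases h : VS top la pd f (v 0)
      · simp [h]
      · simp [h]
  obtain ⟨V, h1, h2, h3⟩ := recur N pd (fun n w => if VS top la pd f n then w + 1 else w) 0 B.hpd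
    hst (fun n hn => pd_lt B hn)
  refine ⟨V, h1, h2, fun n hn h => ?_, fun n hn h => ?_⟩
  · rw [h3 n hn, if_pos h]
  · rw [h3 n hn, if_neg h]

/-- adding a lower block all of whose inner gaps are very short and which is followed by a gap
that is not very short -/
theorem V_add {f V : N.M → N.M} (hf : GF f) (hV : VF top la pd f V) {y : N.M} (hy : 0 < y)
    (hgap : ∃ p, p ≤ la y ∧ (∀ q, la y < q → q ≤ top y → f p ≤ f q)) {x : N.M}
    (h : Ap top la x y)
    (h1 : ∃ p, top x < p ∧ p ≤ la y ∧ (∀ q, la x < q → q ≤ top x → f p < f q) ∧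
      ∀ q, la y < q → q ≤ top y → f p ≤ f q) :
    V (x + y) + 1 = V y + pc x := by
  obtain ⟨p, hp1, hp2, hp3, hp4⟩ := h1
  have key : ∀ b : N.M, ∀ x', x' < b → 0 < x' → top x' = top x → la x ≤ la x' →
      V (x' + y) + 1 = V y + pc x' := by
    intro b
    refine ind_S1 (P := fun b => ∀ x', x' < b → 0 < x' → top x' = top x → la x ≤ la x' →
      V (x' + y) + 1 = V y + pc x') ?_ ?_ ?_ b
    · refine (D1.ball (P := fun v x' => 0 < x' → top x' = top x → la x ≤ la x' →
        V (x' + y) + 1 = V y + pc x') (DG.var 0) (D1.imp ?_ (D1.imp ?_ (D1.imp ?_ ?_)))).1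
      · exact D1.lt (DG.const 0) (DG.var 0)
      · exact D1.eq (DG.app B.htop (DG.var 0)) (DG.const _)
      · exact D1.le (DG.const _) (DG.app B.hla (DG.var 0))
      · exact D1.eq (DG.add (DG.app hV.hV (DG.add (DG.var 0) (DG.const y))) (DG.const 1))
          (DG.add (DG.const _) (DG.app B.hpc (DG.var 0)))
    · intro x' hx
      exact absurd hx (not_lt_of_ge (zero_le' _))
    · intro b ih x' hxb hx ht hl
      have hap : Ap top la x' y := ⟨hx, hy, by rw [ht]; exact h.2.2⟩
      have hpos : 0 < x' + y := add_pos hx hy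
      have hpd := pd_add B hap
      have hla := la_add_ap B.toBinF hap
      have htop := top_add_ap B.toBinF hap
      rcases pd_cases B hx with ⟨h2, h3⟩ | ⟨h2, h3, h4⟩
      · have hno : ¬ VS top la pd f (x' + y) := by
          rintro ⟨_, p', hp'1, hp'2, hp'3⟩
          rw [hpd, h2, zero_add] at hp'2
          rw [hpd, h2, zero_add, hla] at hp'3
          rw [htop] at hp'1
          have h5 := hp'3 p (lt1_of_le hp2) (by rw [← h3, ht]; exact hp1)
          have h6 := hp4 p' hp'2 (le_of_lt1 hp'1)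
          exact absurd h5 (not_lt_of_ge h6)
        rw [hV.no _ hpos hno, hpd, h2, zero_add, B.pc_eq x' hx, h2, B.pc_zero, zero_add]
      · have hyes : VS top la pd f (x' + y) := by
          have hap' := ap_pd B hap h2
          have e1 : la (pd x' + y) = la (pd x') := la_add_ap B.toBinF hap'
          refine ⟨?_, p, ?_, ?_, ?_⟩
          · rw [hpd]; exact add_pos h2 hy
          · rw [htop]
            exact lt1_of_le (hp2.trans (B.la_le_top y hy))
          · rw [hpd, e1]
            refine lt_of_le_of_lt (B.la_le_top _ h2) ?_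
            rw [h4, ht]
            exact hp1
          · intro q hq1 hq2
            rw [hpd, e1] at hq1
            rw [hla] at hq2
            refine hp3 q (lt_of_le_of_lt hl hq2) ?_
            have := (le_of_lt1 hq1).trans (B.la_le_top _ h2)
            rw [h4, ht] at this
            exact this
        rw [hV.yes _ hpos hyes, hpd, B.pc_eq x' hx]
        have h5 := ih (pd x') (lt_of_lt_of_le (pd_lt B hx) (le_of_lt1 hxb)) h2 (by rw [h4, ht])
          (hl.trans h3.le)
        rw [h5]
        ring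
  exact key (x + 1) x (lt1 x) h.1 rfl le_rfl

end

end Pool.Agent.W941.TH
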