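import Pool.Agent.W941.TH.El

/-! The chain lemma: too many separated sums produce the omitted colour. -/

namespace Pool.Agent.W941.TH

open Pool.Agent.Helper617.RM Pool.Agent.H645R2.R

universe u

set_option linter.unusedSectionVars false
set_option linter.unusedVariables false

variable {N : L2Structure.{u}} [IsModelRCA0 N]

/-- `S` omits the colour `i` for the colouring given by `f` -/
structure Sol (top la pd : N.M → N.M) (f V : N.M → N.M) (S : Set N.M) (i : N.M) :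
    Prop where
  hf : GF f
  hV : VF top la pd f V
  hS : S ∈ N.Sets
  unb : ∀ b, ∃ x ∈ S, b ≤ x
  thin : ∀ s ∈ FS N S, la (V s) ≠ i

section

variable {p2 top la pd pc Φ : N.M → N.M} (B : Bits p2 top la pd pc) (P : PS Φ)

include B

theorem exists_Sol (h : ThinHT N) {f : N.M → N.M} (hf : GF f) :
    ∃ V S i, Sol top la pd f V S i := by
  obtain ⟨V, hV⟩ := exists_V B hf
  have hc : GF (fun x => la (V x)) := GF.of (DG.app B.hla (DG.app hV.hV (DG.var 0)))
  obtain ⟨S, hS, hu, i, hi⟩ := h (fun x => la (V x))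
    (codeRel_mem_D0 (R := fun x y => y = la (V x)) hc)
  refine ⟨V, S, i, hf, hV, hS, fun b => ?_, hi⟩
  by_contra hcon
  push Not at hcon
  exact hu ⟨b, hcon⟩

include P

theorem chain {f V : N.M → N.M} {S : Set N.M} {i : N.M} (hs : Sol top la pd f V S i)
    {K : N.M} (hK : p2 (i + 1) = K + 1) {X Lo Hi : N.M → N.M} (hX : GF X) (hLo : GF Lo)
    (hHi : GF Hi) (hEl : ∀ t, t ≤ K → El top la pc Φ S (p2 (i + 1)) (X t) (Lo t) (Hi t))
    (hsep : ∀ t, t < K → Hi (t + 1) ≤ Lo t)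
    (hwall : ∀ t, t < K → ∃ p, top (X (t + 1)) < p ∧ p ≤ la (X t) ∧
      (∀ q, la (X (t + 1)) < q → q ≤ top (X (t + 1)) → f p < f q) ∧
      ∀ q, la (X t) < q → q ≤ top (X 0) → f p ≤ f q) : False := by
  have hLH : ∀ t, t ≤ K → Lo t ≤ Hi t := by
    intro t ht
    obtain ⟨_, h2, h3, h4, _⟩ := hEl t ht
    exact (h3.trans ((B.la_le_top _ h2).trans_lt h4)).le
  have key : ∀ k, k ≤ K → ∃ y, Lo k ≤ Hi 0 ∧ FSp Φ S (Lo k) (Hi 0) y ∧ 0 < y ∧ la y = la (X k) ∧
      top y = top (X 0) ∧ ∃ a, V y + k = V (X 0) + p2 (i + 1) * a := by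
    intro k
    refine ind_S1 (P := fun k => k ≤ K → ∃ y, Lo k ≤ Hi 0 ∧ FSp Φ S (Lo k) (Hi 0) y ∧ 0 < y ∧
      la y = la (X k) ∧ top y = top (X 0) ∧ ∃ a, V y + k = V (X 0) + p2 (i + 1) * a) ?_ ?_ ?_ k
    · refine S1.congr (R := fun v => ∃ y, ¬ v 0 ≤ K ∨ (Lo (v 0) ≤ Hi 0 ∧
        FSp Φ S (Lo (v 0)) (Hi 0) y ∧ 0 < y ∧ la y = la (X (v 0)) ∧ top y = top (X 0) ∧
        ∃ a, V y + v 0 = V (X 0) + p2 (i + 1) * a)) ?_ fun v => ?_
      · refine S1.ex (S1.or (D1.le (DG.var 1) (DG.const K)).2 (S1.and ?_ (S1.and ?_ (S1.and ?_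
          (S1.and ?_ (S1.and ?_ (S1.ex ?_)))))))
        · exact (D1.le (DG.app hLo (DG.var 1)) (DG.const _)).1
        · exact FSp_S1 P hs.hS (DG.app hLo (DG.var 1)) (DG.const _) (DG.var 0)
        · exact (D1.lt (DG.const 0) (DG.var 0)).1
        · exact (D1.eq (DG.app B.hla (DG.var 0)) (DG.app B.hla (DG.app hX (DG.var 1)))).1
        · exact (D1.eq (DG.app B.htop (DG.var 0)) (DG.const _)).1
        · exact (D1.eq (DG.add (DG.app hs.hV.hV (DG.var 1)) (DG.var 2))
            (DG.add (DG.const _) (DG.mul (DG.const _) (DG.var 0)))).1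
      · constructor
        · rintro ⟨y, hy⟩ hk
          rcases hy with hy | hy
          · exact absurd hk hy
          · exact ⟨y, hy⟩
        · intro h
          by_cases hk : v 0 ≤ K
          · obtain ⟨y, hy⟩ := h hk
            exact ⟨y, Or.inr hy⟩
          · exact ⟨0, Or.inl hk⟩
    · intro _
      obtain ⟨h1, h2, h3, h4, _⟩ := hEl 0 (zero_le' _)
      exact ⟨X 0, hLH 0 (zero_le' _), h1, h2, rfl, rfl, 0, by rw [mul_zero]⟩
    · intro k ih hk
      have hk' : k < K := add_one_le_iff'.1 hk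
      obtain ⟨y, y0, y1, y2, y3, y4, a, ha⟩ := ih hk'.le
      obtain ⟨h1, h2, h3, h4, c, hc⟩ := hEl (k + 1) hk
      obtain ⟨_, g2, g3, g4, _⟩ := hEl k hk'.le
      obtain ⟨p, w1, w2, w3, w4⟩ := hwall k hk'
      have hap : Ap top la (X (k + 1)) y := by
        refine ⟨h2, y2, ?_⟩
        rw [y3]
        exact h4.trans_le ((hsep k hk').trans g3.le)
      have hV := V_add B hs.hf hs.hV y2 ⟨p, by rw [y3]; exact w2, fun q hq hq' =>
        w4 q (by rw [← y3]; exact hq) (by rw [← y4]; exact hq')⟩ hap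
        ⟨p, w1, by rw [y3]; exact w2, w3, fun q hq hq' =>
          w4 q (by rw [← y3]; exact hq) (by rw [← y4]; exact hq')⟩
      refine ⟨X (k + 1) + y, ?_, ?_, add_pos h2 y2, ?_, ?_, a + c, ?_⟩
      · exact (hLH _ hk).trans ((hsep k hk').trans y0)
      · exact FSp_add P h1 y1 ((hLH _ hk).trans (hsep k hk')) (hsep k hk')
          ((hsep k hk').trans y0)
      · exact la_add_ap B.toBinF hap
      · rw [top_add_ap B.toBinF hap, y4]
      · calc V (X (k + 1) + y) + (k + 1) = (V (X (k + 1) + y) + 1) + k := by ring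
          _ = (V y + k) + pc (X (k + 1)) := by rw [hV]; ring
          _ = V (X 0) + p2 (i + 1) * (a + c) := by rw [ha, hc]; ring
  have fin : ∀ k, k ≤ K → (∀ y a, V y + k = V (X 0) + p2 (i + 1) * a →
      ∃ q, V y = p2 i * (q + q + 1)) → False := by
    intro k hk h
    obtain ⟨y, _, y1, y2, _, _, a, ha⟩ := key k hk
    obtain ⟨q, hq⟩ := h y a ha
    exact hs.thin y (y1.mem_FS P y2) (B.la_unique _ _ _ hq)
  obtain ⟨r, q, hr, he⟩ := B.modp (V (X 0)) (i + 1)
  have hsucc : p2 (i + 1) = p2 i + p2 i := B.p2_succ i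
  rcases le_or_gt (p2 i) r with h | h
  · obtain ⟨k, rfl⟩ := exists_sub h
    have hk : k ≤ K := by
      refine le_of_lt1 ?_
      rw [← hK]
      exact lt_of_le_of_lt (le_add_of_nonneg_left (zero_le' _)) hr
    refine fin k hk fun y a hy => ⟨q + a, ?_⟩
    refine add_cancel' (c := k) ?_
    rw [hy, he, hsucc]
    ring
  · have hk : r + p2 i ≤ K := by
      refine le_of_lt1 ?_
      rw [← hK, hsucc]
      exact add_lt_add_left h (p2 i)
    refine fin (r + p2 i) hk fun y a hy => ?_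
    have h1 : V y + p2 i = p2 (i + 1) * (q + a) := by
      refine add_cancel' (c := r) ?_
      calc V y + p2 i + r = V y + (r + p2 i) := by ring
        _ = p2 (i + 1) * (q + a) + r := by rw [hy, he]; ring
    rcases eq_zero_or_succ (q + a) with h0 | ⟨w, h0⟩
    · rw [h0, mul_zero] at h1
      have : 0 < V y + p2 i := add_pos_of_nonneg_of_pos (zero_le' _) (B.p2_pos i)
      rw [h1] at this
      exact absurd this (lt_irrefl _)
    · refine ⟨w, ?_⟩
      refine add_cancel' (c := p2 i) ?_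
      rw [h1, h0, hsucc]
      ring

end

/-! ### the bad case -/

/-- there is a wall right of `x` and at most `b'` -/
def NT (top la f : N.M → N.M) (x b' : N.M) : Prop :=
  ∃ p, p < b' + 1 ∧ (top x < p ∧ ∀ q, q < top x + 1 → la x < q → f p < f q)

/-- beyond each bound there is a sum with a wall to the right -/
def Bad (top la pc Φ f : N.M → N.M) (S : Set N.M) (n : N.M) : Prop :=
  ∀ b, ∃ x b', El top la pc Φ S n x b b' ∧ NT top la f x b'

/-- a sequence of sums with walls between them -/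
structure BSeq (top la pc Φ f : N.M → N.M) (S : Set N.M) (n : N.M) (X e G : N.M → N.M) :
    Prop where
  hX : GF X
  he : GF e
  hG : GF G
  el : ∀ j, El top la pc Φ S n (X j) (e j) (e (j + 1))
  in_ : ∀ j q, la (X j) < q → q ≤ top (X j) → G j < f q
  out : ∀ j q, top (X j) < q → q ≤ la (X (j + 1)) → G j ≤ f q
  att : ∀ j, ∃ p, top (X j) < p ∧ p ≤ la (X (j + 1)) ∧ f p = G j

section

variable {p2 top la pd pc Φ : N.M → N.M} (B : Bits p2 top la pd pc) (P : PS Φ)

include B P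

theorem exists_BSeq {f : N.M → N.M} (hf : GF f) {S : Set N.M} (hS : S ∈ N.Sets) {n : N.M}
    (h : Bad top la pc Φ f S n) : ∃ X e G, BSeq top la pc Φ f S n X e G := by
  have hNT : D1 (fun v : Ctx N => NT top la f (v 1) (v 2)) := by
    refine D1.bex (P := fun v p => top (v 1) < p ∧ ∀ q, q < top (v 1) + 1 → la (v 1) < q →
      f p < f q) (DG.add (DG.var 2) (DG.const 1)) (D1.and (D1.lt (DG.app B.htop (DG.var 2))
      (DG.var 0)) (D1.ball (P := fun v q => la (v 2) < q → f (v 0) < f q)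
      (DG.add (DG.app B.htop (DG.var 2)) (DG.const 1)) (D1.imp ?_ ?_)))
    · exact D1.lt (DG.app B.hla (DG.var 3)) (DG.var 0)
    · exact D1.lt (DG.app hf (DG.var 1)) (DG.app hf (DG.var 0))
  obtain ⟨hx, hb, hx1, hb1, h⟩ := choice2
    (R := fun b x b' => El top la pc Φ S n x b b' ∧ NT top la f x b')
    (S1.and (El_S1 B P hS n (DG.var 1) (DG.var 0) (DG.var 2)) hNT.1) h
  obtain ⟨e, he, he0, he1⟩ := exists_iter hb1 0
  have hX : GF (fun j => hx (e j)) := GF.of (DG.app hx1 (DG.app he (DG.var 0)))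
  have hel : ∀ j, El top la pc Φ S n (hx (e j)) (e j) (e (j + 1)) := by
    intro j
    rw [he1]
    exact (h (e j)).1
  obtain ⟨G, hG, hG2⟩ := least_fun (N := N)
    (P := fun j g => ∃ p, p < la (hx (e (j + 1))) + 1 ∧ (top (hx (e j)) < p ∧ f p = g)) (by
      refine D1.bex (P := fun v p => top (hx (e (v 0))) < p ∧ f p = v 1)
        (DG.add (DG.app B.hla (DG.app hX (DG.add (DG.var 0) (DG.const 1)))) (DG.const 1))
        (D1.and ?_ ?_)
      · exact D1.lt (DG.app B.htop (DG.app hX (DG.var 1))) (DG.var 0)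
      · exact D1.eq (DG.app hf (DG.var 0)) (DG.var 2)) (by
      intro j
      obtain ⟨p, hp1, hp2, _⟩ := (h (e j)).2
      refine ⟨f p, p, ?_, hp2, rfl⟩
      rw [← he1] at hp1
      exact hp1.trans (add_lt_add_of_lt_of_le (hel (j + 1)).2.2.1 le_rfl))
  have hmin : ∀ j q, top (hx (e j)) < q → q ≤ la (hx (e (j + 1))) → G j ≤ f q := by
    intro j q h1 h2
    by_contra hcon
    push Not at hcon
    exact (hG2 j).2 _ hcon ⟨q, lt1_of_le h2, h1, rfl⟩
  refine ⟨fun j => hx (e j), e, G, hX, he, hG, hel, fun j q h1 h2 => ?_, hmin, fun j => ?_⟩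
  · obtain ⟨p, hp1, hp2, hp3⟩ := (h (e j)).2
    refine lt_of_le_of_lt (hmin j p hp2 ?_) (hp3 q (lt1_of_le h2) h1)
    rw [← he1] at hp1
    exact (le_of_lt1 hp1).trans (hel (j + 1)).2.2.1.le
  · obtain ⟨p, hp1, hp2, hp3⟩ := (hG2 j).1
    exact ⟨p, hp2, le_of_lt1 hp1, hp3⟩

omit P

theorem BSeq.e_lt {f X e G : N.M → N.M} {S : Set N.M} {n : N.M}
    (h : BSeq top la pc Φ f S n X e G) (j : N.M) : e j < e (j + 1) := by
  obtain ⟨_, h2, h3, h4, _⟩ := h.el j
  exact h3.trans ((B.la_le_top _ h2).trans_lt h4)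

theorem BSeq.e_mono {f X e G : N.M → N.M} {S : Set N.M} {n : N.M}
    (h : BSeq top la pc Φ f S n X e G) {j j' : N.M} (hj : j ≤ j') : e j ≤ e j' := by
  obtain ⟨d, rfl⟩ := exists_sub hj
  refine ind_S1 (P := fun d => e j ≤ e (j + d)) (D1.le (DG.const _) (DG.app h.he
    (DG.add (DG.const j) (DG.var 0)))).1 ?_ ?_ d
  · rw [add_zero]
  · intro d ih
    rw [← add_assoc]
    exact ih.trans (h.e_lt B _).le

theorem BSeq.le_e {f X e G : N.M → N.M} {S : Set N.M} {n : N.M}
    (h : BSeq top la pc Φ f S n X e G) (j : N.M) : j ≤ e j := by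
  refine ind_S1 (P := fun d => d ≤ e d) (D1.le (DG.var 0) (DG.app h.he (DG.var 0))).1
    (zero_le' _) ?_ j
  intro d ih
  exact succ_le' (lt_of_le_of_lt ih (h.e_lt B d))

/-- the window lemma -/
theorem BSeq.win {f X e G : N.M → N.M} (hf : GF f) {S : Set N.M} {n : N.M}
    (h : BSeq top la pc Φ f S n X e G) {c j1 : N.M} (d : N.M) :
    (∀ j, j < j1 + d + 1 → j1 ≤ j → c ≤ G j) →
      ∀ q, q < top (X (j1 + d)) + 1 → la (X j1) < q → c ≤ f q := by
  refine ind_S1 (P := fun d => (∀ j, j < j1 + d + 1 → j1 ≤ j → c ≤ G j) →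
      ∀ q, q < top (X (j1 + d)) + 1 → la (X j1) < q → c ≤ f q) ?_ ?_ ?_ d
  · have hd : DG (fun v : Ctx N => j1 + v 0) := DG.add (DG.const j1) (DG.var 0)
    refine (D1.imp (D1.ball (P := fun v j => j1 ≤ j → c ≤ G j) (DG.add hd (DG.const 1))
      (D1.imp (D1.le (DG.const _) (DG.var 0)) (D1.le (DG.const _) (DG.app h.hG (DG.var 0)))))
      (D1.ball (P := fun v q => la (X j1) < q → c ≤ f q)
        (DG.add (DG.app B.htop (DG.app h.hX hd)) (DG.const 1))
        (D1.imp (D1.lt (DG.const _) (DG.var 0)) (D1.le (DG.const _) (DG.app hf (DG.var 0)))))).1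
  · intro h0 q hq1 hq2
    rw [add_zero] at hq1 h0
    exact (h0 j1 (lt1 _) le_rfl).trans (h.in_ j1 q hq2 (le_of_lt1 hq1)).le
  · intro d ih h0 q hq1 hq2
    rw [← add_assoc] at hq1 h0
    have h1 := ih (fun j hj => h0 j (hj.trans (lt1 _)))
    rcases lt_or_ge q (top (X (j1 + d)) + 1) with h2 | h2
    · exact h1 q h2 hq2
    · have h3 := add_one_le_iff'.1 h2
      rcases le_or_gt q (la (X (j1 + d + 1))) with h4 | h4
      · exact (h0 (j1 + d) ((lt1 _).trans (lt1 _)) (le_add_of_nonneg_right (zero_le' _))).trans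
          (h.out _ q h3 h4)
      · exact (h0 (j1 + d + 1) (lt1 _) ((le_add_of_nonneg_right (zero_le' _)).trans
          (lt1 _).le)).trans (h.in_ _ q h4 (le_of_lt1 hq1)).le

include P

/-- the record lemma -/
theorem BSeq.record {f V X e G : N.M → N.M} {S : Set N.M} {i : N.M}
    (hs : Sol top la pd f V S i) (h : BSeq top la pc Φ f S (p2 (i + 1)) X e G)
    {K : N.M} (hK : p2 (i + 1) = K + 1) {κ : N.M → N.M} (hκ : GF κ)
    (h1 : ∀ t, t < K → κ (t + 1) < κ t)
    (h2 : ∀ t, t < K → ∀ j, κ (t + 1) ≤ j → j ≤ κ 0 → G (κ (t + 1)) ≤ G j) : False := by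
  have hle : ∀ t, t ≤ K → κ t ≤ κ 0 := by
    intro t
    refine ind_S1 (P := fun t => t ≤ K → κ t ≤ κ 0) (D1.imp (D1.le (DG.var 0) (DG.const K))
      (D1.le (DG.app hκ (DG.var 0)) (DG.const _))).1 (fun _ => le_rfl) ?_ t
    intro t ih ht
    have ht' : t < K := add_one_le_iff'.1 ht
    exact (h1 t ht').le.trans (ih ht'.le)
  have hmono : ∀ t, t < K → la (X (κ (t + 1) + 1)) ≤ la (X (κ t)) := by
    intro t ht
    have h3 : κ (t + 1) + 1 ≤ κ t := succ_le' (h1 t ht)
    rcases lt_or_eq_of_le h3 with h3 | h3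
    · obtain ⟨_, g2, g3, g4, _⟩ := h.el (κ (t + 1) + 1)
      have h4 : e (κ (t + 1) + 1 + 1) ≤ e (κ t) := h.e_mono B (succ_le' h3)
      exact ((B.la_le_top _ g2).trans g4.le).trans (h4.trans (h.el (κ t)).2.2.1.le)
    · rw [h3]
  refine chain B P hs hK (X := fun t => X (κ t)) (Lo := fun t => e (κ t))
    (Hi := fun t => e (κ t + 1)) (GF.of (DG.app h.hX (DG.app hκ (DG.var 0))))
    (GF.of (DG.app h.he (DG.app hκ (DG.var 0))))
    (GF.of (DG.app h.he (DG.add (DG.app hκ (DG.var 0)) (DG.const 1))))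
    (fun t _ => h.el (κ t)) (fun t ht => h.e_mono B (succ_le' (h1 t ht))) ?_
  intro t ht
  obtain ⟨p, hp1, hp2, hp3⟩ := h.att (κ (t + 1))
  refine ⟨p, hp1, hp2.trans (hmono t ht), fun q hq1 hq2 => ?_, fun q hq1 hq2 => ?_⟩
  · rw [hp3]
    exact h.in_ _ q hq1 hq2
  · rw [hp3]
    obtain ⟨d, hd⟩ := exists_sub (hle t ht.le)
    refine h.win B hs.hf (j1 := κ t) d (fun j hj1 hj2 => ?_) q ?_ hq1
    · rw [← hd] at hj1
      exact h2 t ht j ((h1 t ht).le.trans hj2) (le_of_lt1 hj1)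
    · rw [← hd]
      exact lt1_of_le hq2

end

end Pool.Agent.W941.TH
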