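import Pool.Agent.W941.TH.Sums

/-! Sums with high lowest digit and number of digits divisible by `2 ^ R`. -/

namespace Pool.Agent.W941.TH

open Pool.Agent.Helper617.RM Pool.Agent.H645R2.R

universe u

set_option linter.unusedSectionVars false
set_option linter.unusedVariables false

variable {N : L2Structure.{u}} [IsModelRCA0 N]

section

variable {p2 top la pd pc Φ : N.M → N.M} (B : Bits p2 top la pd pc) (P : PS Φ)

/-- remainders modulo `p2 R` -/
theorem exists_rem (B : BinF p2 top la) (R : N.M) : ∃ ρ : N.M → N.M, GF ρ ∧ ∀ m, ρ m < p2 R ∧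
    ∃ q, m = ρ m + p2 R * q := by
  obtain ⟨ρ, h1, h2⟩ := least_fun (N := N)
    (P := fun m r => r < p2 R ∧ ∃ q, q < m + 1 ∧ m = r + p2 R * q) (by
      refine D1.and (D1.lt (DG.var 1) (DG.const _)) (D1.bex (P := fun v q => v 0 = v 1 +
        p2 R * q) (DG.add (DG.var 0) (DG.const 1)) ?_)
      exact D1.eq (DG.var 1) (DG.add (DG.var 2) (DG.mul (DG.const _) (DG.var 0)))) (by
      intro m
      obtain ⟨r, q, h1, h2⟩ := B.modp m R
      refine ⟨r, h1, q, lt1_of_le ?_, h2⟩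
      conv_rhs => rw [h2]
      calc q = 1 * q := by ring
        _ ≤ p2 R * q := mul_le_mul' (one_le_of_pos (B.p2_pos R)) le_rfl
        _ ≤ r + p2 R * q := le_add_of_nonneg_left (zero_le' _))
  refine ⟨ρ, h1, fun m => ⟨(h2 m).1.1, ?_⟩⟩
  obtain ⟨q, _, h⟩ := (h2 m).1.2
  exact ⟨q, h⟩

theorem dvd_of_rem {R : N.M} {ρ : N.M → N.M} (h : ∀ m, ρ m < p2 R ∧ ∃ q, m = ρ m + p2 R * q)
    {a b x : N.M} (hab : ρ a = ρ b) (hx : b = a + x) : p2 R ∣ x := by
  obtain ⟨q, hq⟩ := (h a).2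
  obtain ⟨q', hq'⟩ := (h b).2
  have h1 : x + p2 R * q = p2 R * q' := by
    refine add_cancel' (c := ρ a) ?_
    calc x + p2 R * q + ρ a = (ρ a + p2 R * q) + x := by ring
      _ = b := by rw [← hq, ← hx]
      _ = ρ b + p2 R * q' := hq'
      _ = p2 R * q' + ρ a := by rw [hab]; ring
  exact dvd_of_dvd_add (y := p2 R * q) (h1 ▸ dvd_mul_right _ _) (dvd_mul_right _ _)

/-- the next element of an unbounded set -/
theorem exists_nx {S : Set N.M} (hS : S ∈ N.Sets) (hu : ∀ b, ∃ x ∈ S, b ≤ x) :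
    ∃ nx : N.M → N.M, GF nx ∧ ∀ b, nx b ∈ S ∧ b ≤ nx b := by
  obtain ⟨nx, h1, h2⟩ := least_fun (N := N) (P := fun b x => x ∈ S ∧ b ≤ x)
    (D1.and (D1.mem (DG.var 1) hS) (D1.le (DG.var 0) (DG.var 1))) (fun b => by
      obtain ⟨x, hx, hb⟩ := hu b
      exact ⟨x, hx, hb⟩)
  exact ⟨nx, h1, fun b => (h2 b).1⟩

/-- iteration of a function of the model -/
theorem exists_iter {g : N.M → N.M} (hg : GF g) (a : N.M) :
    ∃ e : N.M → N.M, GF e ∧ e 0 = a ∧ ∀ n, e (n + 1) = g (e n) :=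
  prec (st := fun _ w => g w) (D1.eq (DG.var 2) (DG.app hg (DG.var 1))) a

/-- partial sums of a function of the model -/
theorem exists_psum {g : N.M → N.M} (hg : GF g) :
    ∃ t : N.M → N.M, GF t ∧ t 0 = 0 ∧ ∀ n, t (n + 1) = t n + g n :=
  prec (st := fun n w => w + g n)
    (D1.eq (DG.var 2) (DG.add (DG.var 1) (DG.app hg (DG.var 0)))) 0

include B P

/-- phase one: sums with high lowest digit -/
theorem phase1 {S : Set N.M} (hS : S ∈ N.Sets) (hu : ∀ b, ∃ x ∈ S, b ≤ x) (b : N.M) :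
    ∃ x b', FSp Φ S b b' x ∧ 0 < x ∧ b < la x ∧ top x < b' := by
  obtain ⟨nx, hnx, hnx2⟩ := exists_nx hS hu
  have hg : GF (fun a => nx (a + 1)) := GF.of (DG.app hnx (DG.add (DG.var 0) (DG.const 1)))
  obtain ⟨s, hs, hs0, hs1⟩ := exists_iter hg (nx (b + 1))
  obtain ⟨t, ht, ht0, ht1⟩ := exists_psum hs
  obtain ⟨ρ, hρ, hρ2⟩ := exists_rem B.toBinF (b + 1)
  have hsS : ∀ j, s j ∈ S := by
    intro j
    rcases eq_zero_or_succ j with h | ⟨j', h⟩
    · rw [h, hs0]; exact (hnx2 _).1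
    · rw [h, hs1]; exact (hnx2 _).1
  have hsb : ∀ j, b < s j := by
    intro j
    refine ind_S1 (P := fun j => b < s j) (D1.lt (DG.const b) (DG.app hs (DG.var 0))).1 ?_ ?_ j
    · rw [hs0]; exact lt_of_lt_of_le (lt1 b) (hnx2 _).2
    · intro j ih
      rw [hs1]
      exact ih.trans (lt_of_lt_of_le (lt1 _) (hnx2 _).2)
  have key : ∀ j d, ∃ x, t (j + d) = t j + x ∧ FSp Φ S b (s (j + d)) x ∧ (0 < d → 0 < x) := by
    intro j d
    refine ind_S1 (P := fun d => ∃ x, t (j + d) = t j + x ∧ FSp Φ S b (s (j + d)) x ∧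
      (0 < d → 0 < x)) ?_ ?_ ?_ d
    · have hjd : DG (fun v : Ctx N => j + v 1) := DG.add (DG.const j) (DG.var 1)
      refine S1.ex (S1.and ?_ (S1.and ?_ ?_))
      · exact (D1.eq (DG.app ht hjd) (DG.add (DG.const _) (DG.var 0))).1
      · exact FSp_S1 P hS (DG.const b) (DG.app hs hjd) (DG.var 0)
      · exact (D1.imp (D1.lt (DG.const 0) (DG.var 1)) (D1.lt (DG.const 0) (DG.var 0))).1
    · refine ⟨0, by rw [add_zero, add_zero], ?_, fun h => absurd h (lt_irrefl _)⟩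
      exact FSp_zero P S _ _
    · rintro d ⟨x, h1, h2, _⟩
      have h3 : s (j + d) < s (j + d + 1) := by
        rw [hs1]; exact lt_of_lt_of_le (lt1 _) (hnx2 _).2
      have h4 : FSp Φ S (s (j + d)) (s (j + d + 1)) (s (j + d)) :=
        FSp_single P (hsS _) le_rfl h3
      refine ⟨x + s (j + d), ?_, ?_, fun _ => ?_⟩
      · rw [← add_assoc, ht1, h1]; ring
      · rw [← add_assoc]
        exact FSp_add P h2 h4 (hsb _).le le_rfl h3.le
      · exact add_pos_of_nonneg_of_pos (zero_le' _) ((zero_le' b).trans_lt (hsb _))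
  obtain ⟨k, k', hkk, _, he⟩ := php (A := fun j => ρ (t j))
    (GF.of (DG.app hρ (DG.app ht (DG.var 0)))) (p2 (b + 1)) (fun k _ => (hρ2 _).1)
  obtain ⟨d, rfl⟩ := exists_sub hkk.le
  obtain ⟨x, h1, h2, h3⟩ := key k d
  have hd : 0 < d := by
    rcases eq_or_ne d 0 with h | h
    · rw [h, add_zero] at hkk
      exact absurd hkk (lt_irrefl _)
    · exact Pool.Agent.Helper617.RM.pos_of_ne_zero h
  have hx := h3 hd
  obtain ⟨q, hq⟩ := dvd_of_rem hρ2 he h1
  have hq0 : 0 < q := by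
    rcases eq_or_ne q 0 with h | h
    · rw [h, mul_zero] at hq
      exact absurd hx (by rw [hq]; exact lt_irrefl _)
    · exact Pool.Agent.Helper617.RM.pos_of_ne_zero h
  refine ⟨x, s (k + d) + (top x + 1), h2.mono le_rfl (le_add_of_nonneg_right (zero_le' _)), hx,
    ?_, ?_⟩
  · have := B.le_la (b + 1) q hq0
    rw [← hq] at this
    exact add_one_le_iff'.1 this
  · exact lt_of_lt_of_le (lt1 _) (le_add_of_nonneg_left (zero_le' _))

omit B P in
/-- sums of elements of `S` in `[b, b')` with all digits strictly between `b` and `b'` and with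
number of digits divisible by `n` -/
def El (top la pc Φ : N.M → N.M) (S : Set N.M) (n x b b' : N.M) : Prop :=
  FSp Φ S b b' x ∧ 0 < x ∧ b < la x ∧ top x < b' ∧ n ∣ pc x

omit B P in
theorem El.mono {S : Set N.M} {n x b b' c c' : N.M} (h : El top la pc Φ S n x b b')
    (h1 : c ≤ b) (h2 : b' ≤ c') : El top la pc Φ S n x c c' :=
  ⟨h.1.mono h1 h2, h.2.1, h1.trans_lt h.2.2.1, h.2.2.2.1.trans_le h2, h.2.2.2.2⟩

theorem El_S1 {S : Set N.M} (hS : S ∈ N.Sets) (n : N.M) {g g' g'' : Ctx N → N.M} (hg : DG g)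
    (hg' : DG g') (hg'' : DG g'') :
    S1 (fun v => El top la pc Φ S n (g v) (g' v) (g'' v)) := by
  have hdvd : D1 (fun v : Ctx N => n ∣ v 0) := D1.of (D0.dvd (Tm.const n) (Tm.var 0))
  refine S1.and (FSp_S1 P hS hg' hg'' hg) (D1.and ?_ (D1.and ?_ (D1.and ?_ ?_))).1
  · exact D1.lt (DG.const 0) hg
  · exact D1.lt hg' (DG.app B.hla hg)
  · exact D1.lt (DG.app B.htop hg) hg''
  · exact D1.app1 (R := fun x => n ∣ x) hdvd (DG.app B.hpc hg)

/-- phase two -/
theorem exists_El {S : Set N.M} (hS : S ∈ N.Sets) (hu : ∀ b, ∃ x ∈ S, b ≤ x) (R b : N.M) :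
    ∃ x b', El top la pc Φ S (p2 R) x b b' := by
  obtain ⟨hx, hb, hx1, hb1, h⟩ := choice2
    (R := fun b x b' => FSp Φ S b b' x ∧ 0 < x ∧ b < la x ∧ top x < b') (by
      refine S1.and (FSp_S1 P hS (DG.var 0) (DG.var 2) (DG.var 1))
        (D1.and ?_ (D1.and ?_ ?_)).1
      · exact D1.lt (DG.const 0) (DG.var 1)
      · exact D1.lt (DG.var 0) (DG.app B.hla (DG.var 1))
      · exact D1.lt (DG.app B.htop (DG.var 1)) (DG.var 2)) (phase1 B P hS hu)
  obtain ⟨e, he, he0, he1⟩ := exists_iter hb1 b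
  obtain ⟨t, ht, ht0, ht1⟩ := exists_psum (g := fun j => hx (e j))
    (GF.of (DG.app hx1 (DG.app he (DG.var 0))))
  obtain ⟨ρ, hρ, hρ2⟩ := exists_rem B.toBinF R
  have hlt : ∀ j, e j < e (j + 1) := by
    intro j
    obtain ⟨h1, h2, h3, h4⟩ := h (e j)
    rw [he1]
    exact h3.trans ((B.la_le_top _ h2).trans_lt h4)
  have key : ∀ j d, ∃ x, t (j + d) = t j + x ∧ FSp Φ S (e j) (e (j + d)) x ∧
      (0 < d → 0 < x ∧ e j < la x ∧ top x < e (j + d)) ∧ (d = 0 → x = 0) := by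
    intro j d
    refine ind_S1 (P := fun d => ∃ x, t (j + d) = t j + x ∧ FSp Φ S (e j) (e (j + d)) x ∧
      (0 < d → 0 < x ∧ e j < la x ∧ top x < e (j + d)) ∧ (d = 0 → x = 0)) ?_ ?_ ?_ d
    · have hjd : DG (fun v : Ctx N => j + v 1) := DG.add (DG.const j) (DG.var 1)
      refine S1.ex (S1.and ?_ (S1.and ?_ ?_))
      · exact (D1.eq (DG.app ht hjd) (DG.add (DG.const _) (DG.var 0))).1
      · exact FSp_S1 P hS (DG.const _) (DG.app he hjd) (DG.var 0)
      · refine (D1.and (D1.imp (D1.lt (DG.const 0) (DG.var 1)) (D1.and (D1.lt (DG.const 0)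
          (DG.var 0)) (D1.and (D1.lt (DG.const _) (DG.app B.hla (DG.var 0))) (D1.lt
          (DG.app B.htop (DG.var 0)) (DG.app he hjd))))) (D1.imp
          (D1.eq (DG.var 1) (DG.const 0)) (D1.eq (DG.var 0) (DG.const 0)))).1
    · refine ⟨0, by rw [add_zero, add_zero], ?_, fun h => absurd h (lt_irrefl _), fun _ => rfl⟩
      exact FSp_zero P S _ _
    · rintro d ⟨x, h1, h2, h3, h4⟩
      obtain ⟨k1, k2, k3, k4⟩ := h (e (j + d))
      have hle : e j ≤ e (j + d) := by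
        refine ind_S1 (P := fun d => e j ≤ e (j + d)) (D1.le (DG.const _) (DG.app he
          (DG.add (DG.const j) (DG.var 0)))).1 ?_ ?_ d
        · rw [add_zero]
        · intro d ih
          rw [← add_assoc]
          exact ih.trans (hlt _).le
      have he1' := he1 (j + d)
      rw [← he1'] at k1 k4
      have hsum : FSp Φ S (e j) (e (j + d + 1)) (x + hx (e (j + d))) :=
        FSp_add P h2 k1 hle le_rfl (hlt _).le
      refine ⟨x + hx (e (j + d)), ?_, ?_, fun _ => ?_, fun h => absurd h (succ_ne_zero' _)⟩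
      · rw [← add_assoc, ht1, h1]; ring
      · rw [← add_assoc]; exact hsum
      · rw [← add_assoc]
        rcases eq_or_ne d 0 with hd | hd
        · rw [h4 hd, zero_add]
          exact ⟨k2, hle.trans_lt k3, k4⟩
        · obtain ⟨m1, m2, m3⟩ := h3 (Pool.Agent.Helper617.RM.pos_of_ne_zero hd)
          have hap : Ap top la x (hx (e (j + d))) := ⟨m1, k2, m3.trans k3⟩
          refine ⟨add_pos m1 k2, ?_, ?_⟩
          · rw [la_add_ap B.toBinF hap]; exact m2
          · rw [top_add_ap B.toBinF hap]; exact k4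
  obtain ⟨k, k', hkk, _, heq⟩ := php (A := fun j => ρ (pc (t j)))
    (GF.of (DG.app hρ (DG.app B.hpc (DG.app ht (DG.var 0))))) (p2 R) (fun k _ => (hρ2 _).1)
  obtain ⟨d, rfl⟩ := exists_sub hkk.le
  have hd : 0 < d := by
    rcases eq_or_ne d 0 with h | h
    · rw [h, add_zero] at hkk
      exact absurd hkk (lt_irrefl _)
    · exact Pool.Agent.Helper617.RM.pos_of_ne_zero h
  obtain ⟨x, h1, h2, h3, _⟩ := key k d
  obtain ⟨m1, m2, m3⟩ := h3 hd
  obtain ⟨y, y1, y2, y3, y4⟩ := key 0 k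
  rw [zero_add] at y1 y2 y3
  rw [ht0, zero_add] at y1
  have hle0 : e 0 ≤ e k := by
    refine ind_S1 (P := fun d => e 0 ≤ e d) (D1.le (DG.const _) (DG.app he (DG.var 0))).1
      le_rfl ?_ k
    intro d ih
    exact ih.trans (hlt _).le
  have hpc : pc (t (k + d)) = pc (t k) + pc x := by
    rcases eq_or_ne k 0 with h0 | h0
    · rw [h1, h0, ht0, zero_add, B.pc_zero, zero_add]
    · obtain ⟨n1, n2, n3⟩ := y3 (Pool.Agent.Helper617.RM.pos_of_ne_zero h0)
      rw [h1, y1]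
      exact pc_add B ⟨n1, m1, n3.trans m2⟩
  refine ⟨x, e (k + d), h2.mono ?_ le_rfl, m1, ?_, m3, dvd_of_rem hρ2 heq hpc⟩
  · rw [← he0]; exact hle0
  · rw [← he0]; exact hle0.trans_lt m2

end

end Pool.Agent.W941.TH
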