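import Pool.Agent.W941.TH.IS2

/-! Over `RCA₀` thin-HT implies `ACA₀`. -/

namespace Pool.Agent.W941.TH

open Pool.Agent.Helper617.RM Pool.Agent.H645R2.R

universe u

set_option linter.unusedSectionVars false
set_option linter.unusedVariables false

variable {N : L2Structure.{u}} [IsModelRCA0 N]

/-- `z` is enumerated exactly at stage `p` -/
def New (Q : N.M → N.M → Prop) (p z : N.M) : Prop := Q z p ∧ ∀ k, k < p → ¬ Q z k

theorem New_D1 {Q : N.M → N.M → Prop} (hQ : D1 (fun v => Q (v 0) (v 1)))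
    {g g' : Ctx N → N.M} (hg : DG g) (hg' : DG g') : D1 (fun v => New Q (g v) (g' v)) :=
  D1.and (D1.app2 (R := Q) hQ hg' hg) (D1.ball (P := fun v k => ¬ Q (g' v) k) hg
    (D1.app2 (R := Q) hQ hg'.tail (DG.var 0)).not)

/-- the least new number, or the stage -/
theorem exists_new {Q : N.M → N.M → Prop} (hQ : D1 (fun v => Q (v 0) (v 1))) :
    ∃ f : N.M → N.M, GF f ∧ (∀ p, f p ≤ p) ∧ (∀ p z, z < p → New Q p z → f p ≤ z) ∧
      ∀ z, ∃ b, ∀ p, b ≤ p → z < f p := by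
  obtain ⟨f, hf, hf2⟩ := least_fun (N := N) (P := fun p z => New Q p z ∨ z = p)
    (D1.or (New_D1 hQ (DG.var 0) (DG.var 1)) (D1.eq (DG.var 1) (DG.var 0)))
    (fun p => ⟨p, Or.inr rfl⟩)
  have hle : ∀ p z, (New Q p z ∨ z = p) → f p ≤ z := by
    intro p z h
    by_contra hcon
    push Not at hcon
    exact (hf2 p).2 z hcon h
  refine ⟨f, hf, fun p => hle p p (Or.inr rfl), fun p z _ h => hle p z (Or.inl h), fun z => ?_⟩
  have hD : D0 (fun v : Ctx N => New Q (v 1) (v 0)) := by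
    obtain ⟨h1, h2⟩ := New_D1 hQ (DG.var (N := N) 1) (DG.var 0)
    exact d0_of_D1 (R := fun z p => New Q p z) h1 h2
  obtain ⟨b, hb⟩ := strong_bounding (Q := fun z p => New Q p z) hD (z + 1)
  refine ⟨b + (z + 1), fun p hp => ?_⟩
  by_contra hcon
  push Not at hcon
  have hzp : z < p := lt_of_lt_of_le (lt1 z) ((le_add_of_nonneg_left (zero_le' _)).trans hp)
  have hbp : b ≤ p := (le_add_of_nonneg_right (zero_le' _)).trans hp
  rcases (hf2 p).1 with h1 | h1
  · obtain ⟨p', hp', h2⟩ := hb (f p) (lt1_of_le hcon) ⟨p, h1⟩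
    exact h1.2 p' (hp'.trans_le hbp) h2.1
  · rw [h1] at hcon
    exact absurd hzp (not_lt_of_ge hcon)

section

variable {p2 top la pd pc Φ : N.M → N.M} (B : Bits p2 top la pd pc) (P : PS Φ)

include B P

/-- for functions tending to infinity the bad case is impossible -/
theorem not_bad_of_tends (hT : ThinHT N) {f V : N.M → N.M} {S : Set N.M} {i : N.M}
    (hs : Sol top la pd f V S i) (ht : ∀ z, ∃ b, ∀ p, b ≤ p → z < f p) :
    ¬ Bad top la pc Φ f S (p2 (i + 1)) := by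
  intro hbad
  obtain ⟨X, e, G, h⟩ := exists_BSeq B P hs.hf hs.hS hbad
  obtain ⟨K, hK⟩ : ∃ K, p2 (i + 1) = K + 1 := by
    rcases eq_zero_or_succ (p2 (i + 1)) with h0 | h0
    · exact absurd h0 (B.p2_pos _).ne'
    · exact h0
  -- `G` tends to infinity
  have hG : ∀ c, ∃ j0, ∀ j, j0 ≤ j → c < G j := by
    intro c
    obtain ⟨b, hb⟩ := ht c
    refine ⟨b, fun j hj => ?_⟩
    obtain ⟨p, hp1, _, hp2⟩ := h.att j
    rw [← hp2]
    refine hb p ?_
    obtain ⟨_, g2, g3, g4, _⟩ := h.el j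
    exact hj.trans ((h.le_e B j).trans (g3.le.trans ((B.la_le_top _ g2).trans hp1.le)))
  -- true minima
  have hTM : ∀ j0, ∃ j, j0 ≤ j ∧ ∀ j', j ≤ j' → G j ≤ G j' := by
    intro j0
    obtain ⟨g, _, ⟨j, hj, hjg⟩, hmin⟩ := lnp_S1 (P := fun g => ∃ j, j0 ≤ j ∧ G j = g)
      (S1.ex (D1.and (D1.le (DG.const _) (DG.var 0)) (D1.eq (DG.app h.hG (DG.var 0))
        (DG.var 1))).1) (G j0) ⟨j0, le_rfl, rfl⟩
    refine ⟨j, hj, fun j' hj' => ?_⟩
    by_contra hcon
    push Not at hcon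
    rw [hjg] at hcon
    exact hmin (G j') hcon ⟨j', hj.trans hj', rfl⟩
  obtain ⟨w, hw⟩ := IS2 hT
    (θ := fun k w v => IsSq w (k + 1) ∧ (∀ t, t < k + 1 → ∀ z, z < w → MemC (pr t z) w →
      G z ≤ G (z + v)) ∧ ∀ t, t < k → ∀ z, z < w → ∀ z', z' < w → MemC (pr t z) w →
        MemC (pr (t + 1) z') w → z < z') (by
      have hk : DG (fun v : Ctx N => v 0 + 1) := DG.add (DG.var 0) (DG.const 1)
      refine D1.and ?_ (D1.and ?_ ?_)
      · exact D1.of (IsSq_D0 (Tm.var 1) ((Tm.var 0).add Tm.one))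
      · refine D1.ball (P := fun v t => ∀ z, z < v 1 → MemC (pr t z) (v 1) →
          G z ≤ G (z + v 2)) hk (D1.ball (P := fun v z => MemC (pr (v 0) z) (v 2) →
          G z ≤ G (z + v 3)) (DG.var 2) (D1.imp ?_ ?_))
        · exact D1.MemC (DG.pr (DG.var 1) (DG.var 0)) (DG.var 3)
        · exact D1.le (DG.app h.hG (DG.var 0)) (DG.app h.hG (DG.add (DG.var 0) (DG.var 4)))
      · refine D1.ball (P := fun v t => ∀ z, z < v 1 → ∀ z', z' < v 1 → MemC (pr t z) (v 1) →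
          MemC (pr (t + 1) z') (v 1) → z < z') (DG.var 0) (D1.ball (P := fun v z => ∀ z',
          z' < v 2 → MemC (pr (v 0) z) (v 2) → MemC (pr (v 0 + 1) z') (v 2) → z < z')
          (DG.var 2) (D1.ball (P := fun v z' => MemC (pr (v 1) (v 0)) (v 3) →
          MemC (pr (v 1 + 1) z') (v 3) → v 0 < z') (DG.var 3) (D1.imp ?_ (D1.imp ?_ ?_))))
        · exact D1.MemC (DG.pr (DG.var 2) (DG.var 1)) (DG.var 4)
        · exact D1.MemC (DG.pr (DG.add (DG.var 2) (DG.const 1)) (DG.var 0)) (DG.var 4)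
        · exact D1.lt (DG.var 1) (DG.var 0)) (by
      obtain ⟨j, _, hj⟩ := hTM 0
      obtain ⟨s, hs0⟩ := exists_empty (N := N)
      obtain ⟨w, hw, _, hwm⟩ := exists_app hs0 j
      refine ⟨w, fun v => ⟨hw, fun t ht z _ hz => ?_, fun t ht =>
        absurd ht (not_lt_of_ge (zero_le' _))⟩⟩
      have ht0 : t = 0 := by
        rw [zero_add] at ht
        rcases eq_zero_or_succ t with h0 | ⟨t', h0⟩
        · exact h0
        · rw [h0] at ht
          exact absurd ht (not_lt_of_ge ((le_add_of_nonneg_left (zero_le' _))))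
      rw [ht0] at hz
      rw [hw.fn hz hwm]
      exact hj _ (le_add_of_nonneg_right (zero_le' _))) (by
      rintro k ⟨w, hw⟩
      have hw1 := (hw 0).1
      obtain ⟨z, hz⟩ := hw1.ex (lt1 k)
      obtain ⟨j, hj1, hj2⟩ := hTM (z + 1)
      obtain ⟨w', hw', hini, hwm⟩ := exists_app hw1 j
      have hback : ∀ t y, t < k + 1 → MemC (pr t y) w' → MemC (pr t y) w := by
        intro t y ht hy
        obtain ⟨y', hy'⟩ := hw1.ex ht
        rw [hw'.fn hy (hini.mem hy')]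
        exact hy'
      refine ⟨w', fun v => ⟨hw', fun t ht y _ hy => ?_, fun t ht y _ y' _ hy hy' => ?_⟩⟩
      · rcases lt_or_eq_of_le (le_of_lt1 ht) with h1 | h1
        · have h2 := hback t y h1 hy
          exact (hw v).2.1 t h1 y h2.snd_lt h2
        · rw [h1] at hy
          rw [hw'.fn hy hwm]
          exact hj2 _ (le_add_of_nonneg_right (zero_le' _))
      · have h2 := hback t y ht hy
        rcases lt_or_eq_of_le (le_of_lt1 ht) with h1 | h1
        · have h3 := hback (t + 1) y' (add_lt_add_of_lt_of_le h1 le_rfl) hy'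
          exact (hw v).2.2 t h1 y h2.snd_lt y' h3.snd_lt h2 h3
        · rw [h1] at h2 hy'
          rw [hw'.fn hy' hwm, hw1.fn h2 hz]
          exact lt_of_lt_of_le (lt1 z) hj1) K
  have hw1 := (hw 0).1
  obtain ⟨κ, hκ, hκ2⟩ := least_fun (N := N)
    (P := fun t j => K < t ∨ ∃ s, s < K + 1 ∧ (s + t = K ∧ MemC (pr s j) w)) (by
      refine D1.or (D1.lt (DG.const K) (DG.var 0)) (D1.bex (P := fun v s => s + v 0 = K ∧
        MemC (pr s (v 1)) w) (DG.const _) (D1.and ?_ ?_))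
      · exact D1.eq (DG.add (DG.var 0) (DG.var 1)) (DG.const K)
      · exact D1.MemC (DG.pr (DG.var 0) (DG.var 2)) (DG.const w)) (by
      intro t
      rcases lt_or_ge K t with ht | ht
      · exact ⟨0, Or.inl ht⟩
      · obtain ⟨s, hs⟩ := exists_sub ht
        have hsK : s < K + 1 := by
          rw [hs]
          exact lt1_of_le (le_add_of_nonneg_left (zero_le' _))
        obtain ⟨z, hz⟩ := hw1.ex hsK
        exact ⟨z, Or.inr ⟨s, hsK, by rw [hs, add_comm], hz⟩⟩)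
  have hκ3 : ∀ t s, s + t = K → MemC (pr s (κ t)) w := by
    intro t s hst
    rcases (hκ2 t).1 with h1 | ⟨s', _, h1, h2⟩
    · rw [← hst] at h1
      exact absurd h1 (not_lt_of_ge (le_add_of_nonneg_left (zero_le' _)))
    · have : s' = s := add_cancel' (h1.trans hst.symm)
      subst this
      exact h2
  have hsub : ∀ t, t ≤ K → ∃ s, s + t = K := by
    intro t ht
    obtain ⟨s, hs⟩ := exists_sub ht
    exact ⟨s, by rw [hs, add_comm]⟩
  refine h.record B P hs hK hκ (fun t ht => ?_) (fun t ht j hj1 hj2 => ?_)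
  · obtain ⟨s, hst⟩ := hsub (t + 1) (succ_le' ht)
    have h1 := hκ3 (t + 1) s hst
    have h2 := hκ3 t (s + 1) (by rw [← hst]; ring)
    have hsK : s < K := by
      rw [← hst, ← add_assoc]
      exact lt1_of_le (le_add_of_nonneg_right (zero_le' _))
    exact (hw 0).2.2 s hsK _ h1.snd_lt _ h2.snd_lt h1 h2
  · obtain ⟨s, hst⟩ := hsub (t + 1) (succ_le' ht)
    have h1 := hκ3 (t + 1) s hst
    obtain ⟨v, rfl⟩ := exists_sub hj1
    exact (hw v).2.1 s (hw1.lt h1) _ h1.snd_lt h1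

omit B P

/-- thin-HT implies `Σ⁰₁` comprehension -/
theorem sig1_of_thinHT (hT : ThinHT N) : Sig1 N := by
  refine ⟨fun R hR => ?_⟩
  obtain ⟨Q0, hQ0, hRQ⟩ := hR
  have hQ : D1 (fun v : Ctx N => Q0 (cons (v 0) (fun _ => (0 : N.M))) (v 1)) :=
    D1.of (D0.comp (R := fun w => Q0 (tail w) (w 0)) hQ0
      (g := fun w => cons (w 1) (cons (w 0) (fun _ => (0 : N.M))))
      (CM.cons (Tm.var 1) (CM.cons (Tm.var 0) (fun _ => Tm.zero))))
  have hRQ' : ∀ z, R z ↔ ∃ k, Q0 (cons z (fun _ => (0 : N.M))) k := fun z =>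
    hRQ (cons z (fun _ => (0 : N.M)))
  generalize hQdef : (fun z k => Q0 (cons z (fun _ => (0 : N.M))) k) = Q at *
  have hQ' : D1 (fun v : Ctx N => Q (v 0) (v 1)) := by
    rw [← hQdef]; exact hQ
  have hRQ2 : ∀ z, R z ↔ ∃ k, Q z k := by
    rw [← hQdef]; exact hRQ'
  obtain ⟨f, hf, hfle, hfnew, hft⟩ := exists_new hQ'
  obtain ⟨p2, top, la, pd, pc, B⟩ := exists_bits N
  obtain ⟨Φ, P⟩ := exists_PS N
  obtain ⟨V, S, i, hs⟩ := exists_Sol B hT hf
  obtain ⟨b0, hb0⟩ := good_iff B P (not_bad_of_tends B P hT hs hft)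
  have key : ∀ z, ¬ R z ↔ ∃ x b', El top la pc Φ S (p2 (i + 1)) x b0 b' ∧ z ≤ top x ∧
      (∀ q, q < top x + 1 → la x < q → z < f q) ∧ ∀ p, p < top x + 1 → ¬ New Q p z := by
    intro z
    constructor
    · intro hz
      obtain ⟨b1, hb1⟩ := hft z
      obtain ⟨x, b', hx⟩ := exists_El B P hs.hS hs.unb (i + 1) (b0 + (b1 + z))
      refine ⟨x, b', hx.mono (le_add_of_nonneg_right (zero_le' _)) le_rfl, ?_, ?_, ?_⟩
      · refine le_trans ?_ (hx.2.2.1.le.trans (B.la_le_top _ hx.2.1))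
        exact (le_add_of_nonneg_left (zero_le' _)).trans (le_add_of_nonneg_left (zero_le' _))
      · intro q _ hq
        refine hb1 q (le_trans ?_ (hx.2.2.1.le.trans hq.le))
        exact (le_add_of_nonneg_right (zero_le' _)).trans (le_add_of_nonneg_left (zero_le' _))
      · intro p _ hp
        exact hz ((hRQ2 z).2 ⟨p, hp.1⟩)
    · rintro ⟨x, b', hx, h1, h2, h3⟩ hz
      obtain ⟨k, hk⟩ := (hRQ2 z).1 hz
      obtain ⟨p, _, hp1, hp2⟩ := lnp_S1 (P := fun k => Q z k)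
        (D1.app2 hQ' (DG.const z) (DG.var 0)).1 k hk
      have hpt : top x < p := by
        by_contra hcon
        push Not at hcon
        exact h3 p (lt1_of_le hcon) ⟨hp1, hp2⟩
      obtain ⟨q, hq1, hq2, hq3⟩ := hb0 x b0 b' le_rfl hx p hpt
      have h4 := h2 q (lt1_of_le hq2) hq1
      have h5 := hfnew p z (h1.trans_lt hpt) ⟨hp1, hp2⟩
      exact absurd h4 (not_lt_of_ge (hq3.trans h5))
  refine comp_D1 (P := R) ⟨Q0, hQ0, hRQ⟩ (S1.congr (R := fun v => ∃ x b',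
    El top la pc Φ S (p2 (i + 1)) x b0 b' ∧ v 0 ≤ top x ∧
      (∀ q, q < top x + 1 → la x < q → v 0 < f q) ∧ ∀ p, p < top x + 1 → ¬ New Q p (v 0)) ?_
    fun v => (key (v 0)).symm)
  refine S1.ex (S1.ex (S1.and (El_S1 B P hs.hS _ (DG.var 1) (DG.const b0) (DG.var 0))
    (D1.and ?_ (D1.and ?_ ?_)).1))
  · exact D1.le (DG.var 2) (DG.app B.htop (DG.var 1))
  · refine D1.ball (P := fun v q => la (v 1) < q → v 2 < f q)
      (DG.add (DG.app B.htop (DG.var 1)) (DG.const 1)) (D1.imp ?_ ?_)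
    · exact D1.lt (DG.app B.hla (DG.var 2)) (DG.var 0)
    · exact D1.lt (DG.var 3) (DG.app hf (DG.var 0))
  · refine D1.ball (P := fun v p => ¬ New Q p (v 2))
      (DG.add (DG.app B.htop (DG.var 1)) (DG.const 1)) ?_
    exact (New_D1 hQ' (DG.var 0) (DG.var 3)).not

end

end Pool.Agent.W941.TH
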