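import Pool.Agent.W941.TH.LP

/-! `Σ⁰₂` induction from limit inferiors of bounded functions. -/

namespace Pool.Agent.W941.TH

open Pool.Agent.Helper617.RM Pool.Agent.H645R2.R

universe u

set_option linter.unusedSectionVars false
set_option linter.unusedVariables false

variable {N : L2Structure.{u}} [IsModelRCA0 N]

/-- `w` is alive for `k` at stage `s` -/
def Al (θ : N.M → N.M → N.M → Prop) (k w s : N.M) : Prop :=
  s ≤ w ∨ ∀ v, v < s → θ k w v

/-- the least number alive for `k` at stage `s` is dead at stage `s + 1` -/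
def Ch (θ : N.M → N.M → N.M → Prop) (k s : N.M) : Prop :=
  ∃ w, w < s + 1 ∧ (Al θ k w s ∧ (∀ w', w' < w → ¬ Al θ k w' s) ∧ ¬ Al θ k w (s + 1))

theorem Al_D1 {θ : N.M → N.M → N.M → Prop} (hθ : D1 (fun v => θ (v 0) (v 1) (v 2)))
    {g g' g'' : Ctx N → N.M} (hg : DG g) (hg' : DG g') (hg'' : DG g'') :
    D1 (fun v => Al θ (g v) (g' v) (g'' v)) :=
  D1.or (D1.le hg'' hg') (D1.ball (P := fun v x => θ (g v) (g' v) x) hg''
    (D1.app3 (R := θ) hθ hg.tail hg'.tail (DG.var 0)))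

theorem Ch_D1 {θ : N.M → N.M → N.M → Prop} (hθ : D1 (fun v => θ (v 0) (v 1) (v 2)))
    {g g' : Ctx N → N.M} (hg : DG g) (hg' : DG g') : D1 (fun v => Ch θ (g v) (g' v)) := by
  refine D1.bex (P := fun v w => Al θ (g v) w (g' v) ∧ (∀ w', w' < w → ¬ Al θ (g v) w' (g' v)) ∧
    ¬ Al θ (g v) w (g' v + 1)) (DG.add hg' (DG.const 1)) (D1.and ?_ (D1.and ?_ ?_))
  · exact Al_D1 hθ hg.tail (DG.var 0) hg'.tail
  · refine D1.ball (P := fun v w' => ¬ Al θ (g (tail v)) w' (g' (tail v))) (DG.var 0) ?_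
    exact (Al_D1 hθ hg.tail.tail (DG.var 0) hg'.tail.tail).not
  · exact (Al_D1 hθ hg.tail (DG.var 0) (DG.add hg'.tail (DG.const 1))).not

theorem Al_dead {θ : N.M → N.M → N.M → Prop} {k w s s' : N.M} (h : ¬ Al θ k w s)
    (hs : s ≤ s') : ¬ Al θ k w s' := by
  rintro (h1 | h1)
  · exact h (Or.inl (hs.trans h1))
  · exact h (Or.inr fun v hv => h1 v (hv.trans_le hs))

/-- if there is no witness then the least alive number changes infinitely often -/
theorem Ch_inf {θ : N.M → N.M → N.M → Prop} (hθ : D1 (fun v => θ (v 0) (v 1) (v 2)))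
    {k : N.M} (h : ¬ ∃ w, ∀ v, θ k w v) (s : N.M) : ∃ s', s ≤ s' ∧ Ch θ k s' := by
  by_contra hcon
  push Not at hcon
  obtain ⟨w, hws, hw, hmin⟩ := lnp_S1 (P := fun w => Al θ k w s)
    (Al_D1 hθ (DG.const k) (DG.var 0) (DG.const s)).1 s (Or.inl le_rfl)
  have key : ∀ d, Al θ k w (s + d) := by
    intro d
    refine ind_S1 (P := fun d => Al θ k w (s + d))
      (Al_D1 hθ (DG.const k) (DG.const w) (DG.add (DG.const s) (DG.var 0))).1 ?_ ?_ d
    · rw [add_zero]; exact hw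
    · intro d ih
      by_contra hd
      rw [← add_assoc] at hd
      have hle : s ≤ s + d := le_add_of_nonneg_right (zero_le' _)
      exact hcon (s + d) hle ⟨w, lt1_of_le (hws.trans hle), ih,
        fun w' hw' => Al_dead (hmin w' hw') hle, hd⟩
  refine h ⟨w, fun v => ?_⟩
  rcases key (w + v + 1) with h1 | h1
  · exfalso
    refine absurd h1 (not_le_of_gt ?_)
    calc w < w + v + 1 := lt1_of_le (le_add_of_nonneg_right (zero_le' _))
      _ ≤ s + (w + v + 1) := le_add_of_nonneg_left (zero_le' _)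
  · refine h1 v ?_
    calc v < w + v + 1 := lt1_of_le (le_add_of_nonneg_left (zero_le' _))
      _ ≤ s + (w + v + 1) := le_add_of_nonneg_left (zero_le' _)

/-- if there is a witness then the least alive number changes only finitely often -/
theorem Ch_fin {θ : N.M → N.M → N.M → Prop} (hθ : D1 (fun v => θ (v 0) (v 1) (v 2)))
    {k : N.M} (h : ∃ w, ∀ v, θ k w v) : ∃ s, ∀ s', s ≤ s' → ¬ Ch θ k s' := by
  obtain ⟨w, hw⟩ := h
  obtain ⟨c, hc, ⟨s, hs⟩, hmax⟩ := max_S1 (P := fun c => ∃ s, ∀ w', w' < c → ¬ Al θ k w' s) (by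
    refine S1.ex (D1.ball (P := fun v w' => ¬ Al θ k w' (v 0)) (DG.var 1)
      (Al_D1 hθ (DG.const k) (DG.var 0) (DG.var 1)).not).1) w
    ⟨0, zero_le' _, 0, fun w' hw' => absurd hw' (not_lt_of_ge (zero_le' _))⟩
  refine ⟨s, fun s' hs' => ?_⟩
  rintro ⟨x, hx, h1, h2, h3⟩
  have hxc : c ≤ x := by
    by_contra hcon
    push Not at hcon
    exact Al_dead (hs x hcon) hs' h1
  have hxw : x < w + 1 := by
    by_contra hcon
    push Not at hcon
    exact (h2 w (add_one_le_iff'.1 hcon)) (Or.inr fun v _ => hw v)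
  have hxw' : x ≠ w := by
    rintro rfl
    exact h3 (Or.inr fun v _ => hw v)
  have h4 : x + 1 ≤ w := succ_le' (lt_of_le_of_ne (le_of_lt1 hxw) hxw')
  have h5 := hmax (x + 1) h4 ⟨s' + 1, fun w' hw' => ?_⟩
  · exact absurd (h5.trans hxc) (not_le_of_gt (lt1 x))
  · rcases lt_or_eq_of_le (le_of_lt1 hw') with h6 | h6
    · exact Al_dead (h2 w' h6) (lt1 _).le
    · rw [h6]; exact h3

/-- thin-HT implies `Σ⁰₂` induction -/
theorem IS2 (h : ThinHT N) {θ : N.M → N.M → N.M → Prop}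
    (hθ : D1 (fun v => θ (v 0) (v 1) (v 2))) (h0 : ∃ w, ∀ v, θ 0 w v)
    (hstep : ∀ k, (∃ w, ∀ v, θ k w v) → ∃ w, ∀ v, θ (k + 1) w v) (n : N.M) :
    ∃ w, ∀ v, θ n w v := by
  by_contra hn
  obtain ⟨f, hf, hf2⟩ := least_fun (N := N) (P := fun s k => Ch θ k s ∨ k = n + 1)
    (D1.or (Ch_D1 hθ (DG.var 1) (DG.var 0)) (D1.eq (DG.var 1) (DG.const _)))
    (fun s => ⟨n + 1, Or.inr rfl⟩)
  have hle : ∀ s k, Ch θ k s → f s ≤ k := by
    intro s k hk
    by_contra hcon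
    push Not at hcon
    exact (hf2 s).2 k hcon (Or.inl hk)
  obtain ⟨c, ⟨b, hb⟩, hc⟩ := LP h hf (a := n + 1) (fun s => by
    by_contra hcon
    push Not at hcon
    exact (hf2 s).2 _ hcon (Or.inr rfl))
  have h1 : ∀ k, (¬ ∃ w, ∀ v, θ k w v) → c ≤ k := by
    intro k hk
    obtain ⟨s', h1, h2⟩ := Ch_inf hθ hk b
    exact (hb s' h1).trans (hle s' k h2)
  have hcn : c ≤ n := h1 n hn
  have h2 : ¬ ∃ w, ∀ v, θ c w v := by
    intro hcon
    obtain ⟨s, hs⟩ := Ch_fin hθ hcon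
    obtain ⟨p, hp1, hp2⟩ := hc s
    rcases (hf2 p).1 with h3 | h3
    · rw [hp2] at h3
      exact hs p hp1 h3
    · rw [hp2] at h3
      rw [h3] at hcn
      exact absurd hcn (not_le_of_gt (lt1 n))
  rcases eq_zero_or_succ c with h3 | ⟨c', h3⟩
  · rw [h3] at h2
    exact h2 h0
  · rw [h3] at h2
    have h4 := h1 c' (fun hcon => h2 (hstep c' hcon))
    rw [h3] at h4
    exact absurd h4 (not_le_of_gt (lt1 c'))

end Pool.Agent.W941.TH
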