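import Pool.Agent.W941.TH.Chain

/-! Bounded functions: the bad case is impossible, and limit inferiors exist. -/

namespace Pool.Agent.W941.TH

open Pool.Agent.Helper617.RM Pool.Agent.H645R2.R

universe u

set_option linter.unusedSectionVars false
set_option linter.unusedVariables false

variable {N : L2Structure.{u}} [IsModelRCA0 N]

section

variable {p2 top la pd pc Φ : N.M → N.M} (B : Bits p2 top la pd pc) (P : PS Φ)

include B P

/-- for bounded `f` the bad case is impossible -/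
theorem not_bad_of_bdd {f V : N.M → N.M} {S : Set N.M} {i : N.M}
    (hs : Sol top la pd f V S i) {a : N.M} (ha : ∀ p, f p ≤ a) :
    ¬ Bad top la pc Φ f S (p2 (i + 1)) := by
  intro hbad
  obtain ⟨X, e, G, h⟩ := exists_BSeq B P hs.hf hs.hS hbad
  have hGa : ∀ j, G j ≤ a := by
    intro j
    obtain ⟨p, _, _, hp⟩ := h.att j
    rw [← hp]
    exact ha p
  obtain ⟨K, hK⟩ : ∃ K, p2 (i + 1) = K + 1 := by
    rcases eq_zero_or_succ (p2 (i + 1)) with h0 | h0
    · exact absurd h0 (B.p2_pos _).ne'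
    · exact h0
  obtain ⟨d, _, ⟨α, hα⟩, hmin⟩ := lnp_S1
    (P := fun d => ∃ α, ∀ j, j < p2 ((i + 1) * d) → a + 1 ≤ G (α + j) + d) (by
      refine S1.ex (D1.ball (P := fun v j => a + 1 ≤ G (v 0 + j) + v 1)
        (DG.app B.hp2 (DG.mul (DG.const (i + 1)) (DG.var 1))) ?_).1
      exact D1.le (DG.const _) (DG.add (DG.app h.hG (DG.add (DG.var 1) (DG.var 0))) (DG.var 2)))
    (a + 1) ⟨0, fun j _ => le_add_of_nonneg_left (zero_le' _)⟩
  rcases eq_zero_or_succ d with h0 | ⟨d', h0⟩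
  · rw [h0] at hα
    have := hα 0 (by rw [mul_zero, B.p2_zero]; exact zero_lt_one')
    rw [add_zero, add_zero] at this
    exact absurd (hGa α) (not_le_of_gt (add_one_le_iff'.1 this))
  subst h0
  have hblk : ∀ α', ∃ j, j < p2 ((i + 1) * d') ∧ G (α' + j) + d' ≤ a := by
    intro α'
    by_contra hcon
    push Not at hcon
    exact hmin d' (lt1 d') ⟨α', fun j hj => succ_le' (hcon j hj)⟩
  have hL : p2 ((i + 1) * (d' + 1)) = (K + 1) * p2 ((i + 1) * d') := by
    rw [← hK, ← B.p2_add]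
    congr 1
    ring
  rw [hL] at hα
  have hα' : ∀ j, j < (K + 1) * p2 ((i + 1) * d') → a ≤ G (α + j) + d' := by
    intro j hj
    have := hα j hj
    rw [← add_assoc] at this
    exact le_of_lt1 (add_one_le_iff'.1 this)
  generalize hLdef : p2 ((i + 1) * d') = L at *
  obtain ⟨κ, hκ, hκ2⟩ := least_fun (N := N)
    (P := fun t j => K < t ∨ ∃ s, s < K + 1 ∧ (s + t = K ∧ (α + s * L ≤ j ∧
      (j < α + (s + 1) * L ∧ G j + d' ≤ a)))) (by
      refine D1.or (D1.lt (DG.const K) (DG.var 0)) (D1.bex (P := fun v s => s + v 0 = K ∧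
        (α + s * L ≤ v 1 ∧ (v 1 < α + (s + 1) * L ∧ G (v 1) + d' ≤ a)))
        (DG.const _) (D1.and ?_ (D1.and ?_ (D1.and ?_ ?_))))
      · exact D1.eq (DG.add (DG.var 0) (DG.var 1)) (DG.const K)
      · exact D1.le (DG.add (DG.const α) (DG.mul (DG.var 0) (DG.const L))) (DG.var 2)
      · exact D1.lt (DG.var 2) (DG.add (DG.const α) (DG.mul (DG.add (DG.var 0) (DG.const 1))
          (DG.const L)))
      · exact D1.le (DG.add (DG.app h.hG (DG.var 2)) (DG.const _)) (DG.const _)) (by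
      intro t
      rcases lt_or_ge K t with ht | ht
      · exact ⟨0, Or.inl ht⟩
      · obtain ⟨s, hs⟩ := exists_sub ht
        obtain ⟨j, hj1, hj2⟩ := hblk (α + s * L)
        refine ⟨α + s * L + j, Or.inr ⟨s, ?_, ?_, le_add_of_nonneg_right (zero_le' _), ?_, hj2⟩⟩
        · rw [hs]
          exact lt1_of_le (le_add_of_nonneg_left (zero_le' _))
        · rw [hs, add_comm]
        · calc α + s * L + j < α + s * L + L := add_lt_add_right hj1 _
            _ = α + (s + 1) * L := by ring)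
  have hκ3 : ∀ t s, s + t = K → α + s * L ≤ κ t ∧ κ t < α + (s + 1) * L ∧ G (κ t) + d' ≤ a := by
    intro t s hst
    rcases (hκ2 t).1 with h1 | ⟨s', _, h1, h2, h3, h4⟩
    · rw [← hst] at h1
      exact absurd h1 (not_lt_of_ge (le_add_of_nonneg_left (zero_le' _)))
    · have : s' = s := add_cancel' (h1.trans hst.symm)
      subst this
      exact ⟨h2, h3, h4⟩
  have hsub : ∀ t, t ≤ K → ∃ s, s + t = K := by
    intro t ht
    obtain ⟨s, hs⟩ := exists_sub ht
    exact ⟨s, by rw [hs, add_comm]⟩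
  refine h.record B P hs hK hκ (fun t ht => ?_) (fun t ht j hj1 hj2 => ?_)
  · obtain ⟨s, hst⟩ := hsub (t + 1) (succ_le' ht)
    obtain ⟨_, h2, _⟩ := hκ3 (t + 1) s hst
    obtain ⟨h3, _, _⟩ := hκ3 t (s + 1) (by rw [← hst]; ring)
    exact h2.trans_le h3
  · obtain ⟨s, hst⟩ := hsub (t + 1) (succ_le' ht)
    obtain ⟨h1, _, h2⟩ := hκ3 (t + 1) s hst
    obtain ⟨_, h3, _⟩ := hκ3 0 K (add_zero K)
    obtain ⟨j', hj'⟩ := exists_sub (((le_add_of_nonneg_right (zero_le' _)).trans h1).trans hj1)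
    have hlt : j' < (K + 1) * L := by
      have : α + j' < α + (K + 1) * L := by rw [← hj']; exact hj2.trans_lt h3
      exact lt_of_add_lt_add_left this
    have h4 := hα' j' hlt
    rw [← hj'] at h4
    have h5 : G (κ (t + 1)) + d' ≤ G j + d' := h2.trans h4
    exact le_of_add_le_add_right h5

/-- in the good case walls do not exist beyond some bound -/
theorem good_iff {f : N.M → N.M} {S : Set N.M} {n : N.M} (h : ¬ Bad top la pc Φ f S n) :
    ∃ b, ∀ x c b', b ≤ c → El top la pc Φ S n x c b' →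
      ∀ p, top x < p → ∃ q, la x < q ∧ q ≤ top x ∧ f q ≤ f p := by
  unfold Bad at h
  push Not at h
  obtain ⟨b, hb⟩ := h
  refine ⟨b, fun x c b' hc hx p hp => ?_⟩
  by_contra hcon
  push Not at hcon
  refine hb x (b' + p) (hx.mono hc (le_add_of_nonneg_right (zero_le' _))) ⟨p, ?_, hp,
    fun q hq1 hq2 => hcon q hq2 (le_of_lt1 hq1)⟩
  exact lt1_of_le (le_add_of_nonneg_left (zero_le' _))

/-- limit inferiors of bounded functions -/
theorem LP_of {f V : N.M → N.M} {S : Set N.M} {i : N.M}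
    (hs : Sol top la pd f V S i) {a : N.M} (ha : ∀ p, f p ≤ a) :
    ∃ c, (∃ b, ∀ p, b ≤ p → c ≤ f p) ∧ ∀ b, ∃ p, b ≤ p ∧ f p = c := by
  obtain ⟨b0, hb0⟩ := good_iff B P (not_bad_of_bdd B P hs ha)
  have hlow : ∀ q c, b0 ≤ q → ((∃ x b', El top la pc Φ S (p2 (i + 1)) x q b' ∧
      ∀ p, p < top x + 1 → q ≤ p → c ≤ f p) ↔ ∀ p, q ≤ p → c ≤ f p) := by
    intro q c hq
    constructor
    · rintro ⟨x, b', hx, h⟩ p hp
      rcases lt_or_ge p (top x + 1) with h1 | h1
      · exact h p h1 hp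
      · obtain ⟨q', h2, h3, h4⟩ := hb0 x q b' hq hx p (add_one_le_iff'.1 h1)
        exact (h q' (lt1_of_le h3) (hx.2.2.1.trans h2).le).trans h4
    · intro h
      obtain ⟨x, b', hx⟩ := exists_El B P hs.hS hs.unb (i + 1) q
      exact ⟨x, b', hx, fun p _ hp => h p hp⟩
  obtain ⟨c, hca, ⟨q, hq, h1⟩, hmax⟩ := max_S1
    (P := fun c => ∃ q, b0 ≤ q ∧ ∃ x b', El top la pc Φ S (p2 (i + 1)) x q b' ∧
      ∀ p, p < top x + 1 → q ≤ p → c ≤ f p) (by
      refine S1.ex (S1.and (D1.le (DG.const b0) (DG.var 0)).1 (S1.ex (S1.ex (S1.and ?_ ?_))))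
      · exact El_S1 B P hs.hS _ (DG.var 1) (DG.var 2) (DG.var 0)
      · refine (D1.ball (P := fun v p => v 2 ≤ p → v 3 ≤ f p)
          (DG.add (DG.app B.htop (DG.var 1)) (DG.const 1)) (D1.imp ?_ ?_)).1
        · exact D1.le (DG.var 3) (DG.var 0)
        · exact D1.le (DG.var 4) (DG.app hs.hf (DG.var 0))) a
    ⟨0, zero_le' _, b0, le_rfl, (hlow b0 0 le_rfl).2 fun _ _ => zero_le' _⟩
  have h2 := (hlow q c hq).1 h1
  refine ⟨c, ⟨q, h2⟩, fun b => ?_⟩
  by_contra hcon
  push Not at hcon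
  have h3 : ∀ p, q + b ≤ p → c + 1 ≤ f p := by
    intro p hp
    have h4 := h2 p ((le_add_of_nonneg_right (zero_le' _)).trans hp)
    have h5 := hcon p ((le_add_of_nonneg_left (zero_le' _)).trans hp)
    exact succ_le' (lt_of_le_of_ne h4 (Ne.symm h5))
  have h4 : c + 1 ≤ a := (h3 (q + b) le_rfl).trans (ha _)
  have hqb : b0 ≤ q + b := hq.trans (le_add_of_nonneg_right (zero_le' _))
  have h5 := hmax (c + 1) h4 ⟨q + b, hqb, (hlow (q + b) (c + 1) hqb).2 h3⟩
  exact absurd h5 (not_le_of_gt (lt1 c))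

omit B P

/-- thin-HT implies that bounded functions have limit inferiors -/
theorem LP (h : ThinHT N) {f : N.M → N.M} (hf : GF f) {a : N.M} (ha : ∀ p, f p ≤ a) :
    ∃ c, (∃ b, ∀ p, b ≤ p → c ≤ f p) ∧ ∀ b, ∃ p, b ≤ p ∧ f p = c := by
  obtain ⟨p2, top, la, pd, pc, B⟩ := exists_bits N
  obtain ⟨Φ, P⟩ := exists_PS N
  obtain ⟨V, S, i, hs⟩ := exists_Sol B h hf
  exact LP_of B P hs ha

end

end Pool.Agent.W941.TH
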